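import Pool.Agent.Lib.H75C.C7

/-! # H75C/C8: positivity of the localizer form -/

namespace Pool.Agent.H75C

open Matrix Pool.Agent.H25A Pool.Agent.H54J Pool.Agent.H16T
open scoped ComplexOrder

variable {ι κ : Type*} [Fintype ι] [DecidableEq ι] [Fintype κ] [DecidableEq κ] {n D : ℕ}

theorem two_letters (B0 B1 : Matrix κ ι ℂ) :
    B0ᴴ * B0 + B0ᴴ * B0 = 1 + lK B0 B1 + lZ B0 B1 ∧
    B1ᴴ * B1 + B1ᴴ * B1 = 1 + lK B0 B1 - lZ B0 B1 ∧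
    B0ᴴ * B1 + B0ᴴ * B1 = lP B0 B1 - lY B0 B1 ∧
    B1ᴴ * B0 + B1ᴴ * B0 = lP B0 B1 + lY B0 B1 := by
  unfold lK lZ lP lY
  refine ⟨by abel, by abel, by abel, by abel⟩

theorem ev1_cons (L : Fin 4 → Matrix ι ι ℂ) (a : ℤ × Wd) (G : List (ℤ × Wd)) :
    ev1 L (a :: G) = (a.1 : ℂ) • wd L a.2 + ev1 L G := by
  unfold ev1
  rw [List.map_cons, List.sum_cons]

theorem ev1_nil (L : Fin 4 → Matrix ι ι ℂ) : ev1 L [] = 0 := rfl

theorem four_smul' (M : Matrix ι ι ℂ) : (4 : ℂ) • M = (M + M) + (M + M) := by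
  rw [show (4 : ℂ) = 2 + 2 by norm_num, add_smul, two_smul]

/-- The localizer matrix in letters. -/
theorem gij_eq (B0 B1 : Matrix κ ι ℂ) (i j : Fin 2) :
    ev1 (lt B0 B1) (gij i j) =
      (4 : ℂ) • ((![B0, B1] i)ᴴ * (1 - B0 * B0ᴴ) * ![B0, B1] j) := by
  obtain ⟨h0, h1, h2, h3⟩ := two_letters B0 B1
  have k0 : lt B0 B1 0 = lK B0 B1 := rfl
  have k1 : lt B0 B1 1 = lP B0 B1 := rfl
  have k2 : lt B0 B1 2 = lY B0 B1 := rfl
  have k3 : lt B0 B1 3 = lZ B0 B1 := rfl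
  have key : ∀ A C : Matrix κ ι ℂ, (4 : ℂ) • (Aᴴ * (1 - B0 * B0ᴴ) * C) =
      ((Aᴴ * C + Aᴴ * C) + (Aᴴ * C + Aᴴ * C)) - (Aᴴ * B0 + Aᴴ * B0) * (B0ᴴ * C + B0ᴴ * C) := by
    intro A C
    rw [four_smul']
    simp only [Matrix.mul_sub, Matrix.sub_mul, Matrix.mul_one, Matrix.mul_add, Matrix.add_mul,
      Matrix.mul_assoc]
    abel
  rw [key]
  fin_cases i <;> fin_cases j
  · change ev1 (lt B0 B1) (gij 0 0) = ((B0ᴴ * B0 + B0ᴴ * B0) + (B0ᴴ * B0 + B0ᴴ * B0)) -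
      (B0ᴴ * B0 + B0ᴴ * B0) * (B0ᴴ * B0 + B0ᴴ * B0)
    rw [h0]
    simp only [gij, ev1_cons, ev1_nil, wd_cons, wd_nil, k0, k1, k2, k3, Matrix.mul_one]
    push_cast
    simp only [one_smul, neg_smul, two_smul]
    noncomm_ring
  · change ev1 (lt B0 B1) (gij 0 1) = ((B0ᴴ * B1 + B0ᴴ * B1) + (B0ᴴ * B1 + B0ᴴ * B1)) -
      (B0ᴴ * B0 + B0ᴴ * B0) * (B0ᴴ * B1 + B0ᴴ * B1)
    rw [h0, h2]
    simp only [gij, ev1_cons, ev1_nil, wd_cons, wd_nil, k0, k1, k2, k3, Matrix.mul_one]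
    push_cast
    simp only [one_smul, neg_smul, two_smul]
    noncomm_ring
  · change ev1 (lt B0 B1) (gij 1 0) = ((B1ᴴ * B0 + B1ᴴ * B0) + (B1ᴴ * B0 + B1ᴴ * B0)) -
      (B1ᴴ * B0 + B1ᴴ * B0) * (B0ᴴ * B0 + B0ᴴ * B0)
    rw [h0, h3]
    simp only [gij, ev1_cons, ev1_nil, wd_cons, wd_nil, k0, k1, k2, k3, Matrix.mul_one]
    push_cast
    simp only [one_smul, neg_smul, two_smul]
    noncomm_ring
  · change ev1 (lt B0 B1) (gij 1 1) = ((B1ᴴ * B1 + B1ᴴ * B1) + (B1ᴴ * B1 + B1ᴴ * B1)) -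
      (B1ᴴ * B0 + B1ᴴ * B0) * (B0ᴴ * B1 + B0ᴴ * B1)
    rw [h1, h2, h3]
    simp only [gij, ev1_cons, ev1_nil, wd_cons, wd_nil, k0, k1, k2, k3, Matrix.mul_one]
    push_cast
    simp only [one_smul, neg_smul, two_smul]
    noncomm_ring

theorem loc_frame (B0 B1 : Matrix κ ι ℂ) {X : Matrix ι ι ℂ} (hX : X.IsHermitian)
    (z z' : El × El) :
    lin (fun u v => rr X (wd (lt B0 B1) u) (wd (lt B0 B1) v)) (loc' z z') =
      4 * rtr ((B0 * evm (lt B0 B1) X z.1 + B1 * evm (lt B0 B1) X z.2)ᴴ * (1 - B0 * B0ᴴ) *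
        (B0 * evm (lt B0 B1) X z'.1 + B1 * evm (lt B0 B1) X z'.2)) := by
  have hL := lt_herm B0 B1
  unfold loc'
  rw [lin_append, lin_append, lin_append, gmul_eq hL hX, gmul_eq hL hX, gmul_eq hL hX,
    gmul_eq hL hX, gij_eq, gij_eq, gij_eq, gij_eq]
  generalize evm (lt B0 B1) X z.1 = a
  generalize evm (lt B0 B1) X z.2 = b
  generalize evm (lt B0 B1) X z'.1 = c
  generalize evm (lt B0 B1) X z'.2 = d
  have e4 : ∀ M : Matrix ι ι ℂ, rtr ((4 : ℂ) • M) = 4 * rtr M := by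
    intro M
    have h := rtr_smul (4 : ℝ) M
    push_cast at h
    exact h
  have m0 : (![B0, B1] : Fin 2 → Matrix κ ι ℂ) 0 = B0 := rfl
  have m1 : (![B0, B1] : Fin 2 → Matrix κ ι ℂ) 1 = B1 := rfl
  simp only [m0, m1, Matrix.smul_mul, Matrix.mul_smul, e4]
  have e : (B0 * a + B1 * b)ᴴ * (1 - B0 * B0ᴴ) * (B0 * c + B1 * d) =
      aᴴ * (B0ᴴ * (1 - B0 * B0ᴴ) * B0 * c) + (aᴴ * (B0ᴴ * (1 - B0 * B0ᴴ) * B1 * d) +
        (bᴴ * (B1ᴴ * (1 - B0 * B0ᴴ) * B0 * c) + bᴴ * (B1ᴴ * (1 - B0 * B0ᴴ) * B1 * d))) := by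
    rw [conjTranspose_add, conjTranspose_mul, conjTranspose_mul]
    generalize (1 - B0 * B0ᴴ) = Q
    simp only [Matrix.mul_add, Matrix.add_mul, Matrix.mul_assoc]
    abel
  rw [e, rtr_add, rtr_add, rtr_add]
  ring

/-- **Positivity of the localizer form.** -/
theorem loc_PK (δ : H92U.Design 2 D) {B : Fin 2 → Matrix κ ι ℂ} (hB : ConR B)
    {X : Matrix ι ι ℂ} (hX : X.IsHermitian) (m : ℕ) (z : ℕ → El × El) :
    PK m (fun i j => lin (LL δ B X) (loc' (z i) (z j))) := by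
  have hQ : ∀ g : H92U.UG 2, (1 - H92U.rot g B 0 * (H92U.rot g B 0)ᴴ).PosSemidef := by
    intro g
    have h := frE_le (fun k => (B k)ᴴ) (PE3c hB) (cj g) 0
    unfold frE at h
    rw [rot_cj, conjTranspose_conjTranspose] at h
    exact h
  choose C hC hCC _ using fun g => exists_sqrt (hQ g)
  refine (PK.Av δ (M := fun g i j => 4 * rtr ((C g *
    (H92U.rot g B 0 * evm (lt (H92U.rot g B 0) (H92U.rot g B 1)) X (z i).1 +
      H92U.rot g B 1 * evm (lt (H92U.rot g B 0) (H92U.rot g B 1)) X (z i).2))ᴴ * (C g *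
    (H92U.rot g B 0 * evm (lt (H92U.rot g B 0) (H92U.rot g B 1)) X (z j).1 +
      H92U.rot g B 1 * evm (lt (H92U.rot g B 0) (H92U.rot g B 1)) X (z j).2))))
      fun g => (PK_gram m _).smul (by norm_num)).congr ?_
  intro i j
  rw [lin_LL]
  refine H92U.Av_congr δ fun g => ?_
  rw [loc_frame _ _ hX, conjTranspose_mul, (hC g).isHermitian.eq, ← hCC g]
  simp only [Matrix.mul_assoc]

end Pool.Agent.H75C
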