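import Pool.Agent.Lib.H75C.C8

/-! # H75C/C9: the plane functionals of the two certificates as explicit integer elements -/

namespace Pool.Agent.H75C

open Matrix Pool.Agent.H25A Pool.Agent.H54J Pool.Agent.H16T
open scoped ComplexOrder

variable {ι κ : Type*} [Fintype ι] [DecidableEq ι] [Fintype κ] [DecidableEq κ] {n D : ℕ}

/-- Product of one sided elements. -/
def pm (G H : List (ℤ × Wd)) : List (ℤ × Wd) :=
  G.flatMap fun a => H.map fun b => (a.1 * b.1, a.2 ++ b.2)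

/-- Multiple of the tensor product of one sided elements. -/
def tn (c : ℤ) (G H : List (ℤ × Wd)) : El :=
  G.flatMap fun a => H.map fun b => (c * (a.1 * b.1), a.2, b.2)

theorem ev1_append (L : Fin 4 → Matrix ι ι ℂ) (G H : List (ℤ × Wd)) :
    ev1 L (G ++ H) = ev1 L G + ev1 L H := by
  unfold ev1
  rw [List.map_append, List.sum_append]

theorem ev1_smul_map (L : Fin 4 → Matrix ι ι ℂ) (a : ℤ × Wd) (H : List (ℤ × Wd)) :
    ev1 L (H.map fun b => (a.1 * b.1, a.2 ++ b.2)) = (a.1 : ℂ) • (wd L a.2 * ev1 L H) := by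
  unfold ev1
  rw [mul_sum_listmap, List.map_map, List.map_map, List.smul_sum, List.map_map]
  congr 1
  refine List.map_congr_left fun b _ => ?_
  simp only [Function.comp_apply, wd_append]
  rw [Matrix.mul_smul, smul_smul]
  push_cast
  rfl

theorem ev1_pm (L : Fin 4 → Matrix ι ι ℂ) (G H : List (ℤ × Wd)) :
    ev1 L (pm G H) = ev1 L G * ev1 L H := by
  induction G with
  | nil => simp [pm, ev1]
  | cons a G ih =>
    have h : pm (a :: G) H = (H.map fun b => (a.1 * b.1, a.2 ++ b.2)) ++ pm G H := rfl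
    rw [h, ev1_append, ev1_smul_map, ih, ev1_cons, Matrix.add_mul, Matrix.smul_mul]

theorem rtr_ev1_right (L : Fin 4 → Matrix ι ι ℂ) (M : Matrix ι ι ℂ) (H : List (ℤ × Wd)) :
    rtr (M * ev1 L H) = (H.map fun b => (b.1 : ℝ) * rtr (M * wd L b.2)).sum := by
  unfold ev1
  rw [mul_sum_listmap, rtr_listsum, List.map_map, List.map_map]
  congr 1
  refine List.map_congr_left fun b _ => ?_
  simp only [Function.comp_apply]
  rw [Matrix.mul_smul, rtr_intsmul]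

theorem rtr_ev1_left (L : Fin 4 → Matrix ι ι ℂ) (X M : Matrix ι ι ℂ) (G : List (ℤ × Wd)) :
    rtr (X * ev1 L G * X * M) = (G.map fun a => (a.1 : ℝ) * rtr (X * wd L a.2 * X * M)).sum := by
  unfold ev1
  rw [mul_sum_listmap, sum_listmap_mul, sum_listmap_mul, rtr_listsum, List.map_map, List.map_map,
    List.map_map, List.map_map]
  congr 1
  refine List.map_congr_left fun a _ => ?_
  simp only [Function.comp_apply]
  rw [Matrix.mul_smul, Matrix.smul_mul, Matrix.smul_mul, rtr_intsmul]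

theorem lin_tn (L : Fin 4 → Matrix ι ι ℂ) (X : Matrix ι ι ℂ) (c : ℤ) (G H : List (ℤ × Wd)) :
    lin (fun u v => rr X (wd L u) (wd L v)) (tn c G H) = (c : ℝ) * rr X (ev1 L G) (ev1 L H) := by
  unfold tn rr
  rw [lin_flatMap, rtr_ev1_left, ← List.sum_map_mul_left]
  congr 1
  refine List.map_congr_left fun a _ => ?_
  rw [rtr_ev1_right, ← List.sum_map_mul_left, ← List.sum_map_mul_left]
  unfold lin
  rw [List.map_map]
  congr 1
  refine List.map_congr_left fun b _ => ?_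
  simp only [Function.comp_apply]
  push_cast
  ring

/-- Scaling of an element. -/
def scale (c : ℤ) (z : El) : El := z.map fun t => (c * t.1, t.2)

theorem lin_scale (f : Wd → Wd → ℝ) (c : ℤ) (z : El) : lin f (scale c z) = (c : ℝ) * lin f z := by
  unfold lin scale
  rw [List.map_map, ← List.sum_map_mul_left]
  congr 1
  refine List.map_congr_left fun t _ => ?_
  simp only [Function.comp_apply]
  push_cast
  ring

/-! ### the basic one sided elements -/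

/-- `1`. -/
def g1 : List (ℤ × Wd) := [(1, [])]
/-- `a = K + Z`. -/
def ga : List (ℤ × Wd) := [(1, [0]), (1, [3])]
/-- `b = K - Z`. -/
def gb : List (ℤ × Wd) := [(1, [0]), (-1, [3])]
/-- `1 + K + Z`. -/
def gA : List (ℤ × Wd) := [(1, []), (1, [0]), (1, [3])]
/-- `1 + K - Z`. -/
def gB : List (ℤ × Wd) := [(1, []), (1, [0]), (-1, [3])]
/-- `1 - K - Z`. -/
def gR : List (ℤ × Wd) := [(1, []), (-1, [0]), (-1, [3])]
/-- `P + Y`. -/
def gT : List (ℤ × Wd) := [(1, [1]), (1, [2])]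
/-- `P - Y`. -/
def gU : List (ℤ × Wd) := [(1, [1]), (-1, [2])]
/-- `a + b - a b a - b a b`. -/
def gh : List (ℤ × Wd) := [(2, [0]), (-2, [0, 0, 0]), (-2, [3, 0, 3]), (2, [3, 3, 0]), (2, [0, 3, 3])]

/-- The element of `FL` with integer coefficients
`c1 = coefficient of rr 1 (1+K±Z)`, `c2 = - coefficient of rr (1+K±Z) (1+K±Z)`, `c3 = - coefficient of
the one sided part of hf`, `c4 = coefficient of rr a (b a b)`, `c5 = - coefficient of rr u8 u8`,
`c6` of `rr (R (P-Y)) ((P+Y) R)`, `c7` of `rr (R A) (A R)`, `c8 = -` coefficient of `rr 1 (R A R)`. -/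
def fEl (c1 c2 c3 c4 c5 c6 c7 c8 : ℤ) : El :=
  tn c1 g1 gA ++ (tn (-c2) gA gA ++ (tn c1 g1 gB ++ (tn (-c2) gB gB ++
  (tn (-c3) g1 (pm ga ga) ++ (tn (-c3) g1 (pm (pm (pm ga gb) ga) gb) ++
  (tn (-c3) g1 (pm (pm (pm gb ga) gb) ga) ++ (tn (-c3) g1 (pm (pm (pm gb ga) ga) gb) ++
  (tn c4 ga (pm (pm gb ga) gb) ++
  (tn (-c3) g1 (pm gb gb) ++ (tn (-c3) g1 (pm (pm (pm gb ga) gb) ga) ++
  (tn (-c3) g1 (pm (pm (pm ga gb) ga) gb) ++ (tn (-c3) g1 (pm (pm (pm ga gb) gb) ga) ++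
  (tn c4 gb (pm (pm ga gb) ga) ++
  (tn (-c5) gh gh ++
  (tn c6 (pm gR gU) (pm gT gR) ++ (tn c7 (pm gR gA) (pm gA gR) ++
  tn (-c8) g1 (pm (pm gR gA) gR)))))))))))))))))

omit [DecidableEq κ] in
theorem fEl_eq (c1 c2 c3 c4 c5 c6 c7 c8 : ℤ) (X : Matrix ι ι ℂ) (B0 B1 : Matrix κ ι ℂ) :
    lin (fun u v => rr X (wd (lt B0 B1) u) (wd (lt B0 B1) v)) (fEl c1 c2 c3 c4 c5 c6 c7 c8) =
    (fun K P Y Z : Matrix ι ι ℂ =>
      (c1 : ℝ) * rr X 1 (1 + K + Z) - (c2 : ℝ) * rr X (1 + K + Z) (1 + K + Z) +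
      ((c1 : ℝ) * rr X 1 (1 + K - Z) - (c2 : ℝ) * rr X (1 + K - Z) (1 + K - Z)) -
      ((c3 : ℝ) * rr X 1 ((K + Z) * (K + Z) + (K + Z) * (K - Z) * (K + Z) * (K - Z) +
          (K - Z) * (K + Z) * (K - Z) * (K + Z) + (K - Z) * (K + Z) * (K + Z) * (K - Z)) -
        (c4 : ℝ) * rr X (K + Z) ((K - Z) * (K + Z) * (K - Z))) -
      ((c3 : ℝ) * rr X 1 ((K - Z) * (K - Z) + (K - Z) * (K + Z) * (K - Z) * (K + Z) +
          (K + Z) * (K - Z) * (K + Z) * (K - Z) + (K + Z) * (K - Z) * (K - Z) * (K + Z)) -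
        (c4 : ℝ) * rr X (K - Z) ((K + Z) * (K - Z) * (K + Z))) -
      (c5 : ℝ) * rr X (u8 (K + Z) (K - Z)) (u8 (K + Z) (K - Z)) +
      (c6 : ℝ) * rr X ((1 - K - Z) * (P - Y)) ((P + Y) * (1 - K - Z)) +
      (c7 : ℝ) * rr X ((1 - K - Z) * (1 + K + Z)) ((1 + K + Z) * (1 - K - Z)) -
      (c8 : ℝ) * rr X 1 ((1 - K - Z) * (1 + K + Z) * (1 - K - Z)))
      (lK B0 B1) (lP B0 B1) (lY B0 B1) (lZ B0 B1) := by
  have k0 : lt B0 B1 0 = lK B0 B1 := rfl
  have k1 : lt B0 B1 1 = lP B0 B1 := rfl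
  have k2 : lt B0 B1 2 = lY B0 B1 := rfl
  have k3 : lt B0 B1 3 = lZ B0 B1 := rfl
  have v1 : ev1 (lt B0 B1) g1 = 1 := by
    simp only [g1, ev1_cons, ev1_nil, wd_nil]
    simp
  have va : ev1 (lt B0 B1) ga = lK B0 B1 + lZ B0 B1 := by
    simp only [ga, ev1_cons, ev1_nil, wd_cons, wd_nil, k0, k3]
    simp
  have vb : ev1 (lt B0 B1) gb = lK B0 B1 - lZ B0 B1 := by
    simp only [gb, ev1_cons, ev1_nil, wd_cons, wd_nil, k0, k3]
    simp [sub_eq_add_neg]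
  have vA : ev1 (lt B0 B1) gA = 1 + lK B0 B1 + lZ B0 B1 := by
    simp only [gA, ev1_cons, ev1_nil, wd_cons, wd_nil, k0, k3]
    simp [add_assoc]
  have vB : ev1 (lt B0 B1) gB = 1 + lK B0 B1 - lZ B0 B1 := by
    simp only [gB, ev1_cons, ev1_nil, wd_cons, wd_nil, k0, k3]
    simp [add_assoc, sub_eq_add_neg]
  have vR : ev1 (lt B0 B1) gR = 1 - lK B0 B1 - lZ B0 B1 := by
    simp only [gR, ev1_cons, ev1_nil, wd_cons, wd_nil, k0, k3]
    simp [add_assoc, sub_eq_add_neg]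
  have vT : ev1 (lt B0 B1) gT = lP B0 B1 + lY B0 B1 := by
    simp only [gT, ev1_cons, ev1_nil, wd_cons, wd_nil, k1, k2]
    simp
  have vU : ev1 (lt B0 B1) gU = lP B0 B1 - lY B0 B1 := by
    simp only [gU, ev1_cons, ev1_nil, wd_cons, wd_nil, k1, k2]
    simp [sub_eq_add_neg]
  have vh : ev1 (lt B0 B1) gh = u8 (lK B0 B1 + lZ B0 B1) (lK B0 B1 - lZ B0 B1) := by
    simp only [gh, ev1_cons, ev1_nil, wd_cons, wd_nil, k0, k3, Matrix.mul_one]
    unfold u8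
    push_cast
    simp only [neg_smul, two_smul]
    noncomm_ring
  unfold fEl
  simp only [lin_append, lin_tn, ev1_pm, v1, va, vb, vA, vB, vR, vT, vU, vh]
  generalize lK B0 B1 = K
  generalize lP B0 B1 = P
  generalize lY B0 B1 = Y
  generalize lZ B0 B1 = Z
  have radd : ∀ U V : Matrix ι ι ℂ, rr X 1 (U + V) = rr X 1 U + rr X 1 V := by
    intro U V
    unfold rr
    rw [Matrix.mul_add, rtr_add]
  simp only [radd]
  push_cast
  ring

/-- `2880 *` the functional of certificate A. -/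
def fA : El := fEl 2160 1080 90 360 55 936 18 972

/-- `14400 *` the functional of certificate B. -/
def fB : El := fEl 12960 6480 450 1800 275 4230 846 5922

omit [DecidableEq κ] in
theorem FFB_eq (X : Matrix ι ι ℂ) (B0 B1 : Matrix κ ι ℂ) :
    14400 * FF (1 / 5) (47 / 40) (11 / 9) X B0 B1 =
      lin (fun u v => rr X (wd (lt B0 B1) u) (wd (lt B0 B1) v)) fB := by
  unfold fB
  rw [fEl_eq, FF_letters]
  unfold FL
  push_cast
  ring

omit [DecidableEq κ] in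
theorem er_letters (X : Matrix ι ι ℂ) (B0 B1 : Matrix κ ι ℂ) :
    er X (B0ᴴ * B0) = (1 / 8) * rr X 1 ((1 - lK B0 B1 - lZ B0 B1) *
      (1 + lK B0 B1 + lZ B0 B1) * (1 - lK B0 B1 - lZ B0 B1)) ∧
    xx X (B0ᴴ * B0 * (1 - B0ᴴ * B0)) = (1 / 16) * rr X ((1 - lK B0 B1 - lZ B0 B1) *
      (1 + lK B0 B1 + lZ B0 B1)) ((1 + lK B0 B1 + lZ B0 B1) * (1 - lK B0 B1 - lZ B0 B1)) := by
  have hE0 : B0ᴴ * B0 = ((2⁻¹ : ℝ) : ℂ) • (1 + lK B0 B1 + lZ B0 B1) := by
    have h : (1 + lK B0 B1 + lZ B0 B1) = B0ᴴ * B0 + B0ᴴ * B0 := by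
      unfold lK lZ
      abel
    rw [h, half_add]
  have hR0 : 1 - B0ᴴ * B0 = ((2⁻¹ : ℝ) : ℂ) • (1 - lK B0 B1 - lZ B0 B1) := by
    have h : (1 - lK B0 B1 - lZ B0 B1) = (1 - B0ᴴ * B0) + (1 - B0ᴴ * B0) := by
      unfold lK lZ
      abel
    rw [h, half_add]
  have hK := lK_herm B0 B1
  have hZ := lZ_herm B0 B1
  unfold er
  rw [hR0, hE0, xx_rr]
  have h1 : (((2⁻¹ : ℝ) : ℂ) • (1 + lK B0 B1 + lZ B0 B1) *
      ((2⁻¹ : ℝ) : ℂ) • (1 - lK B0 B1 - lZ B0 B1))ᴴ =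
      ((2⁻¹ : ℝ) : ℂ) • (1 - lK B0 B1 - lZ B0 B1) *
      ((2⁻¹ : ℝ) : ℂ) • (1 + lK B0 B1 + lZ B0 B1) := by
    simp only [conjTranspose_mul, conjTranspose_smul, conjTranspose_add, conjTranspose_sub,
      conjTranspose_one, hK, hZ, Complex.star_def, Complex.conj_ofReal]
  rw [h1]
  unfold rr
  simp only [Matrix.smul_mul, Matrix.mul_smul, rtr_smul, Matrix.mul_assoc, Matrix.one_mul]
  constructor <;> ring

omit [DecidableEq κ] in
theorem FFA_eq (X : Matrix ι ι ℂ) (B0 B1 : Matrix κ ι ℂ) :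
    2880 * (FF 0 (13 / 10) (11 / 9) X B0 B1 -
        1 / 10 * (er X (B0ᴴ * B0) - xx X (B0ᴴ * B0 * (1 - B0ᴴ * B0)))) =
      lin (fun u v => rr X (wd (lt B0 B1) u) (wd (lt B0 B1) v)) fA := by
  unfold fA
  rw [fEl_eq, FF_letters, (er_letters X B0 B1).1, (er_letters X B0 B1).2]
  unfold FL
  push_cast
  ring

omit [DecidableEq κ] in
/-- Averaged form, certificate A. -/
theorem Av_FFA (δ : H92U.Design 2 D) (B : Fin 2 → Matrix κ ι ℂ) (X : Matrix ι ι ℂ) :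
    2880 * H92U.Av δ (fun g => FF 0 (13 / 10) (11 / 9) X (H92U.rot g B 0) (H92U.rot g B 1) -
      1 / 10 * (er X ((H92U.rot g B 0)ᴴ * H92U.rot g B 0) -
        xx X ((H92U.rot g B 0)ᴴ * H92U.rot g B 0 * (1 - (H92U.rot g B 0)ᴴ * H92U.rot g B 0)))) =
      lin (LL δ B X) fA := by
  rw [lin_LL, ← H92U.Av_mul_left_real]
  exact H92U.Av_congr δ fun g => FFA_eq X _ _

omit [DecidableEq κ] in
/-- Averaged form, certificate B. -/
theorem Av_FFB (δ : H92U.Design 2 D) (B : Fin 2 → Matrix κ ι ℂ) (X : Matrix ι ι ℂ) :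
    14400 * H92U.Av δ (fun g => FF (1 / 5) (47 / 40) (11 / 9) X (H92U.rot g B 0)
      (H92U.rot g B 1)) = lin (LL δ B X) fB := by
  rw [lin_LL, ← H92U.Av_mul_left_real]
  exact H92U.Av_congr δ fun g => FFB_eq X _ _

end Pool.Agent.H75C
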