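import Pool.Agent.Lib.H75C.C6

/-! # H75C/C7: positivity of the forms sq, xx, loc averaged over a design of `U(2)` -/

namespace Pool.Agent.H75C

open Matrix Pool.Agent.H25A Pool.Agent.H54J Pool.Agent.H16T
open scoped ComplexOrder

variable {ι κ : Type*} [Fintype ι] [DecidableEq ι] [Fintype κ] [DecidableEq κ] {n D : ℕ}

/-- Symmetric positive semidefinite kernels on `{0, …, m - 1}`. -/
def PK (m : ℕ) (M : ℕ → ℕ → ℝ) : Prop :=
  (∀ i j, M i j = M j i) ∧
    ∀ c : ℕ → ℝ, 0 ≤ ∑ i ∈ Finset.range m, ∑ j ∈ Finset.range m, c i * c j * M i j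

theorem PK.congr {m : ℕ} {M M' : ℕ → ℕ → ℝ} (h : PK m M) (he : ∀ i j, M' i j = M i j) :
    PK m M' := by
  have : M' = M := by
    funext i j
    exact he i j
  rw [this]
  exact h

theorem PK.smul {m : ℕ} {M : ℕ → ℕ → ℝ} (h : PK m M) {r : ℝ} (hr : 0 ≤ r) :
    PK m (fun i j => r * M i j) := by
  refine ⟨fun i j => by
    change r * M i j = r * M j i
    rw [h.1 i j], fun c => ?_⟩
  have h1 : ∑ i ∈ Finset.range m, ∑ j ∈ Finset.range m, c i * c j * (r * M i j) =
      r * ∑ i ∈ Finset.range m, ∑ j ∈ Finset.range m, c i * c j * M i j := by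
    simp only [Finset.mul_sum]
    exact Finset.sum_congr rfl fun i _ => Finset.sum_congr rfl fun j _ => by ring
  rw [h1]
  exact mul_nonneg hr (h.2 c)

/-- Averages of positive semidefinite kernels. -/
theorem PK.Av {m : ℕ} (δ : H92U.Design n D) {M : H92U.UG n → ℕ → ℕ → ℝ}
    (h : ∀ U, PK m (M U)) : PK m (fun i j => H92U.Av δ (fun U => M U i j)) := by
  refine ⟨fun i j => H92U.Av_congr δ fun U => (h U).1 i j, fun c => ?_⟩
  have h1 : ∑ i ∈ Finset.range m, ∑ j ∈ Finset.range m, c i * c j *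
      H92U.Av δ (fun U => M U i j) =
      H92U.Av δ (fun U => ∑ i ∈ Finset.range m, ∑ j ∈ Finset.range m, c i * c j * M U i j) := by
    rw [H92U.Av_sum]
    refine Finset.sum_congr rfl fun i _ => ?_
    rw [H92U.Av_sum]
    exact Finset.sum_congr rfl fun j _ => (H92U.Av_mul_left_real δ _ _).symm
  rw [h1]
  exact H92U.Av_nonneg δ fun U => (h U).2 c

omit [DecidableEq ι] [DecidableEq κ] in
/-- Gram kernels. -/
theorem PK_gram (m : ℕ) (W : ℕ → Matrix κ ι ℂ) : PK m (fun i j => rtr ((W i)ᴴ * W j)) := by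
  refine ⟨fun i j => ?_, fun c => ?_⟩
  · have h : ((W j)ᴴ * W i)ᴴ = (W i)ᴴ * W j := by
      rw [conjTranspose_mul, conjTranspose_conjTranspose]
    have h2 : rtr (((W j)ᴴ * W i)ᴴ) = rtr ((W j)ᴴ * W i) := by
      unfold rtr
      rw [Matrix.trace_conjTranspose]
      exact Complex.conj_re _
    change rtr ((W i)ᴴ * W j) = rtr ((W j)ᴴ * W i)
    rw [← h2, h]
  · have h := rtr_rect_nonneg (∑ i ∈ Finset.range m, (c i : ℂ) • W i)
    have e : rtr ((∑ i ∈ Finset.range m, (c i : ℂ) • W i)ᴴ * ∑ i ∈ Finset.range m, (c i : ℂ) • W i) =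
        ∑ i ∈ Finset.range m, ∑ j ∈ Finset.range m, c i * c j * rtr ((W i)ᴴ * W j) := by
      rw [Matrix.conjTranspose_sum, Matrix.sum_mul]
      unfold rtr
      rw [Matrix.trace_sum, Complex.re_sum]
      refine Finset.sum_congr rfl fun i _ => ?_
      rw [Matrix.mul_sum, Matrix.trace_sum, Complex.re_sum]
      refine Finset.sum_congr rfl fun j _ => ?_
      rw [Matrix.conjTranspose_smul, Complex.star_def, Complex.conj_ofReal, Matrix.smul_mul,
        Matrix.mul_smul, smul_smul, Matrix.trace_smul, smul_eq_mul, ← Complex.ofReal_mul,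
        Complex.re_ofReal_mul]
    rw [e] at h
    exact h

/-- The four letters of a pair. -/
def lt (B0 B1 : Matrix κ ι ℂ) : Fin 4 → Matrix ι ι ℂ := ![lK B0 B1, lP B0 B1, lY B0 B1, lZ B0 B1]

omit [DecidableEq κ] in
theorem lt_herm (B0 B1 : Matrix κ ι ℂ) : LetH (lt B0 B1) := by
  intro a
  fin_cases a
  · exact lK_herm B0 B1
  · exact lP_herm B0 B1
  · exact lY_herm B0 B1
  · exact lZ_herm B0 B1

/-- The averaged word form. -/
noncomputable def LL (δ : H92U.Design 2 D) (B : Fin 2 → Matrix κ ι ℂ) (X : Matrix ι ι ℂ)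
    (u v : Wd) : ℝ :=
  H92U.Av δ (fun g => rr X (wd (lt (H92U.rot g B 0) (H92U.rot g B 1)) u)
    (wd (lt (H92U.rot g B 0) (H92U.rot g B 1)) v))

omit [DecidableEq κ] in
theorem lin_LL (δ : H92U.Design 2 D) (B : Fin 2 → Matrix κ ι ℂ) (X : Matrix ι ι ℂ) (z : El) :
    lin (LL δ B X) z = H92U.Av δ (fun g =>
      lin (fun u v => rr X (wd (lt (H92U.rot g B 0) (H92U.rot g B 1)) u)
        (wd (lt (H92U.rot g B 0) (H92U.rot g B 1)) v)) z) := by
  induction z with
  | nil =>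
    simp only [lin_nil]
    rw [H92U.Av_const]
  | cons t z ih =>
    simp only [lin_cons]
    rw [H92U.Av_add, H92U.Av_mul_left_real, ← ih]
    rfl

omit [DecidableEq κ] in
/-- **Positivity of the square form.** -/
theorem sq_PK (δ : H92U.Design 2 D) (B : Fin 2 → Matrix κ ι ℂ) {X : Matrix ι ι ℂ}
    (hX : X.IsHermitian) (m : ℕ) (z : ℕ → El) :
    PK m (fun i j => lin (LL δ B X) (smul' (z i) (z j))) := by
  refine (PK.Av δ (M := fun g i j => rtr ((evm (lt (H92U.rot g B 0) (H92U.rot g B 1)) X (z i))ᴴ *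
    evm (lt (H92U.rot g B 0) (H92U.rot g B 1)) X (z j))) fun g => PK_gram m _).congr ?_
  intro i j
  rw [lin_LL]
  refine H92U.Av_congr δ fun g => ?_
  rw [rtr_evm_mul (lt_herm _ _) hX]

omit [DecidableEq κ] in
/-- **Positivity of the `XX` form.** -/
theorem xx_PK (δ : H92U.Design 2 D) (B : Fin 2 → Matrix κ ι ℂ) {X : Matrix ι ι ℂ}
    (hX : X.PosSemidef) (m : ℕ) (z : ℕ → El) :
    PK m (fun i j => lin (LL δ B X) (tens' (z i) (z j))) := by
  obtain ⟨S, hS, hSX, -⟩ := exists_sqrt hX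
  have hSh : Sᴴ = S := hS.isHermitian.eq
  refine (PK.Av δ (M := fun g i j =>
    rtr ((S * evl (lt (H92U.rot g B 0) (H92U.rot g B 1)) (z i) * S)ᴴ *
      (S * evl (lt (H92U.rot g B 0) (H92U.rot g B 1)) (z j) * S)))
      fun g => PK_gram m _).congr ?_
  intro i j
  rw [lin_LL]
  refine H92U.Av_congr δ fun g => ?_
  rw [← rr_evl (lt_herm _ _)]
  generalize evl (lt (H92U.rot g B 0) (H92U.rot g B 1)) (z i) = R
  generalize evl (lt (H92U.rot g B 0) (H92U.rot g B 1)) (z j) = R'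
  have h1 : rtr (((S * R * S)ᴴ * (S * R' * S))ᴴ) = rtr ((S * R * S)ᴴ * (S * R' * S)) :=
    rtr_conjTranspose _
  rw [← h1, conjTranspose_mul, conjTranspose_conjTranspose, conjTranspose_mul, conjTranspose_mul,
    hSh]
  unfold rr
  have h2 : S * (R'ᴴ * S) * (S * R * S) = (S * R'ᴴ * S) * (S * R * S) := by
    simp only [Matrix.mul_assoc]
  have h3 : X * R * X * R'ᴴ = S * (S * R * X * R'ᴴ) := by
    rw [← hSX]
    simp only [Matrix.mul_assoc]
  have h4 : (S * R * S) * (S * R'ᴴ * S) = (S * R * X * R'ᴴ) * S := by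
    rw [← hSX]
    simp only [Matrix.mul_assoc]
  rw [h3, rtr_mul_comm S, ← h4, rtr_mul_comm]
  congr 1
  simp only [Matrix.mul_assoc]

/-! ### the localizer -/

/-- `4 (T_ij - T_i0 T_0j)` as one sided elements (list of coefficient and word). -/
def gij : Fin 2 → Fin 2 → List (ℤ × Wd)
  | 0, 0 => [(1, []), (-1, [0, 0]), (-1, [0, 3]), (-1, [3, 0]), (-1, [3, 3])]
  | 0, 1 => [(1, [1]), (-1, [2]), (-1, [0, 1]), (1, [0, 2]), (-1, [3, 1]), (1, [3, 2])]
  | 1, 0 => [(1, [1]), (1, [2]), (-1, [1, 0]), (-1, [1, 3]), (-1, [2, 0]), (-1, [2, 3])]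
  | 1, 1 => [(2, []), (2, [0]), (-2, [3]), (-1, [1, 1]), (1, [1, 2]), (-1, [2, 1]), (1, [2, 2])]

/-- The product `z^* G z'` of two sided elements with a one sided element `G` in between. -/
def gmul (G : List (ℤ × Wd)) (z z' : El) : El := G.flatMap fun a =>
  z.flatMap fun t => z'.map fun t' =>
    (a.1 * (sg t.2.1 * sg t.2.2 * (t.1 * t'.1)), t.2.1.reverse ++ (a.2 ++ t'.2.1),
      t'.2.2 ++ t.2.2.reverse)

/-- The localizer product, `4 ∑_ij z_i^* (T_ij - T_i0 T_0j) z'_j`. -/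
def loc' (z z' : El × El) : El :=
  gmul (gij 0 0) z.1 z'.1 ++ (gmul (gij 0 1) z.1 z'.2 ++ (gmul (gij 1 0) z.2 z'.1 ++
    gmul (gij 1 1) z.2 z'.2))

/-- Evaluation of a one sided element. -/
noncomputable def ev1 (L : Fin 4 → Matrix ι ι ℂ) (G : List (ℤ × Wd)) : Matrix ι ι ℂ :=
  (G.map fun a => (a.1 : ℂ) • wd L a.2).sum

/-- Left multiplication of a two sided element by a word. -/
def wl (a : ℤ × Wd) (z : El) : El := z.map fun t => (a.1 * t.1, a.2 ++ t.2.1, t.2.2)

theorem evm_wl (L : Fin 4 → Matrix ι ι ℂ) (X : Matrix ι ι ℂ) (a : ℤ × Wd) (z : El) :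
    evm L X (wl a z) = (a.1 : ℂ) • (wd L a.2 * evm L X z) := by
  unfold evm wl
  rw [mul_sum_listmap, List.map_map, List.map_map, List.smul_sum, List.map_map]
  congr 1
  refine List.map_congr_left fun t _ => ?_
  simp only [Function.comp_apply, wd_append]
  rw [Matrix.mul_smul, smul_smul]
  push_cast
  simp only [Matrix.mul_assoc]

theorem gmul_eq {L : Fin 4 → Matrix ι ι ℂ} (hL : LetH L) {X : Matrix ι ι ℂ}
    (hX : X.IsHermitian) (G : List (ℤ × Wd)) (z z' : El) :
    lin (fun u v => rr X (wd L u) (wd L v)) (gmul G z z') =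
      rtr ((evm L X z)ᴴ * (ev1 L G * evm L X z')) := by
  unfold gmul ev1
  rw [lin_flatMap, sum_listmap_mul, mul_sum_listmap, rtr_listsum, List.map_map, List.map_map,
    List.map_map]
  congr 1
  refine List.map_congr_left fun a _ => ?_
  simp only [Function.comp_apply]
  rw [Matrix.smul_mul, ← evm_wl, rtr_evm_mul hL hX]
  unfold smul' wl
  rw [lin_flatMap, lin_flatMap]
  congr 1
  refine List.map_congr_left fun t _ => ?_
  unfold lin
  rw [List.map_map, List.map_map, List.map_map]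
  congr 1
  refine List.map_congr_left fun t' _ => ?_
  simp only [Function.comp_apply]
  congr 2
  ring

end Pool.Agent.H75C
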