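import Pool.Agent.Lib.H92U.U6

/-! # H75C/C1: designs on the unitary group: uniqueness and complex conjugation -/

namespace Pool.Agent.H75C

open Matrix Pool.Agent.H92U

variable {n D : ℕ}

private theorem cj_mem (U : UG n) :
    ((U : Matrix (Fin n) (Fin n) ℂ).map (starRingEnd ℂ)) ∈ Matrix.unitaryGroup (Fin n) ℂ := by
  rw [Matrix.mem_unitaryGroup_iff]
  have h := Matrix.mem_unitaryGroup_iff.1 U.2
  have h2 := congrArg (fun M : Matrix (Fin n) (Fin n) ℂ => M.map (starRingEnd ℂ)) h
  simp only [Matrix.map_mul] at h2
  have h3 : (star (U : Matrix (Fin n) (Fin n) ℂ)).map (starRingEnd ℂ) =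
      star ((U : Matrix (Fin n) (Fin n) ℂ).map (starRingEnd ℂ)) := by
    ext i j
    simp [Matrix.star_apply]
  rw [h3] at h2
  rw [h2]
  ext i j
  by_cases hij : i = j
  · subst hij
    simp
  · simp [hij]

/-- The entrywise complex conjugate of a unitary matrix. -/
def cj (U : UG n) : UG n := ⟨(U : Matrix (Fin n) (Fin n) ℂ).map (starRingEnd ℂ), cj_mem U⟩

theorem cj_apply (U : UG n) (i j : Fin n) :
    ((cj U : UG n) : Matrix (Fin n) (Fin n) ℂ) i j = star ((U : Matrix (Fin n) (Fin n) ℂ) i j) :=
  rfl

theorem cj_cj (U : UG n) : cj (cj U) = U := by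
  apply Subtype.ext
  ext i j
  rw [cj_apply, cj_apply, star_star]

theorem cj_mul (U V : UG n) : cj (U * V) = cj U * cj V := by
  apply Subtype.ext
  change ((U : Matrix (Fin n) (Fin n) ℂ) * (V : Matrix (Fin n) (Fin n) ℂ)).map (starRingEnd ℂ) =
    (U : Matrix (Fin n) (Fin n) ℂ).map (starRingEnd ℂ) *
      (V : Matrix (Fin n) (Fin n) ℂ).map (starRingEnd ℂ)
  exact Matrix.map_mul

theorem polLe_cj {f : UG n → ℂ} (hf : PolLe D f) : PolLe D (fun U => f (cj U)) := by
  refine Submodule.span_induction (p := fun f _ => PolLe D (fun U => f (cj U))) ?_ ?_ ?_ ?_ hf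
  · rintro _ ⟨l, hl, rfl⟩
    have h1 : PolLe D (lmono (l.map fun x => (x.1, x.2.1, !x.2.2))) := by
      refine PolLe.of_mono ?_
      rw [List.length_map]
      exact hl
    have h2 : (lmono (l.map fun x => (x.1, x.2.1, !x.2.2)) : UG n → ℂ) =
        fun U => lmono l (cj U) := by
      funext U
      unfold lmono
      clear h1 hl
      induction l with
      | nil => simp
      | cons x l ih =>
        rw [List.map_cons, List.map_cons, List.prod_cons, List.map_cons, List.prod_cons, ih]
        congr 1
        unfold fac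
        rcases x with ⟨a, b, c⟩
        cases c <;> simp [cj_apply]
    rwa [h2] at h1
  · exact PolLe.zero
  · intro x y _ _ hx hy
    exact PolLe.add hx hy
  · intro c x _ hx
    exact PolLe.smul c hx

/-- The conjugate design. -/
noncomputable def conjD (δ : Design n D) : Design n D where
  m := δ.m
  w := δ.w
  u := fun i => cj (δ.u i)
  nonneg := δ.nonneg
  sum_one := δ.sum_one
  right := by
    intro f hf V
    have h := δ.right _ (polLe_cj hf) (cj V)
    simp only [cj_mul, cj_cj] at h
    exact h
  left := by
    intro f hf V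
    have h := δ.left _ (polLe_cj hf) (cj V)
    simp only [cj_mul, cj_cj] at h
    exact h

/-- The average of a polynomial does not depend on the design. -/
theorem Av_unique (δ δ' : Design n D) {f : UG n → ℂ} (hf : PolLe D f) : Av δ f = Av δ' f := by
  have h1 : Av δ (fun U => Av δ' (fun V => f (U * V))) = Av δ f := by
    have h0 : Av δ (fun U => Av δ' (fun V => f (U * V))) =
        Av δ' (fun V => Av δ (fun U => f (U * V))) := by
      unfold Av
      simp only [Finset.smul_sum]
      rw [Finset.sum_comm]
      refine Finset.sum_congr rfl fun i _ => Finset.sum_congr rfl fun j _ => ?_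
      rw [smul_comm]
    rw [h0, Av_congr δ' (fun V => Av_right δ hf V), Av_const]
  have h2 : Av δ (fun U => Av δ' (fun V => f (U * V))) = Av δ' f := by
    rw [Av_congr δ (fun U => Av_left δ' hf U), Av_const]
  rw [← h1, h2]

/-- Averages of polynomials are invariant under complex conjugation. -/
theorem Av_cj (δ : Design n D) {f : UG n → ℂ} (hf : PolLe D f) :
    Av δ (fun U => f (cj U)) = Av δ f :=
  Av_unique (conjD δ) δ hf

/-- Real version. -/
theorem Av_cj_re (δ : Design n D) {f : UG n → ℂ} (hf : PolLe D f) :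
    Av δ (fun U => (f (cj U)).re) = Av δ (fun U => (f U).re) := by
  rw [Av_re δ (fun U => f (cj U)), Av_re, Av_cj δ hf]

/-- Right invariance for real parts. -/
theorem Av_right_re (δ : Design n D) {f : UG n → ℂ} (hf : PolLe D f) (V : UG n) :
    Av δ (fun U => (f (U * V)).re) = Av δ (fun U => (f U).re) := by
  rw [Av_re δ (fun U => f (U * V)), Av_re, Av_right δ hf V]

end Pool.Agent.H75C
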