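import Pool.Agent.Lib.H75C.C9
import Pool.Agent.Lib.H72CA.S1
import Pool.Agent.Lib.H2AF.PSD

/-! # H75C/C10: certificates A and B from the block sums -/

namespace Pool.Agent.H75C

open Matrix Pool.Agent.H25A Pool.Agent.H54J Pool.Agent.H16T Pool.Agent.H72CA Pool.Agent.H2AF
open scoped ComplexOrder

variable {ι κ : Type*} [Fintype ι] [DecidableEq ι] [Fintype κ] [DecidableEq κ] {n D : ℕ}

/-- A block sum. -/
noncomputable def bs (m : ℕ) (G : List (List Int)) (M : ℕ → ℕ → ℝ) : ℝ :=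
  ∑ i ∈ Finset.range m, ∑ j ∈ Finset.range m, (ent G i j : ℝ) * M i j

theorem bs_nonneg {m : ℕ} {q : Int} {G L : List (List Int)} (h : psdOK m q G L = true)
    {M : ℕ → ℕ → ℝ} (hM : PK m M) : 0 ≤ bs m G M :=
  psd_sum h M hM.1 hM.2

/-- Certificate A from a representation of `2^24 lin (LL) fA` as a nonnegative number. -/
theorem certA_of (H : ∀ (α β : Type) [Fintype α] [DecidableEq α] [Fintype β] [DecidableEq β]
    (B : Fin 2 → Matrix β α ℂ) (X : Matrix α α ℂ), ConR B → X.PosDef →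
    ∀ δ : H92U.Design 2 12, ∃ S : ℝ, 0 ≤ S ∧ S = 2 ^ 24 * lin (LL δ B X) fA) : CertA := by
  intro α β _ _ _ _ B X hB hX δ
  obtain ⟨S, h0, h1⟩ := H α β B X hB hX δ
  have h2 := Av_FFA δ B X
  rw [← h2] at h1
  nlinarith

/-- Certificate B from a representation of `2^24 lin (LL) fB` as a nonnegative number. -/
theorem certB_of (H : ∀ (α β : Type) [Fintype α] [DecidableEq α] [Fintype β] [DecidableEq β]
    (B : Fin 2 → Matrix β α ℂ) (X : Matrix α α ℂ), ConR B → X.PosDef →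
    ∀ δ : H92U.Design 2 12, ∃ S : ℝ, 0 ≤ S ∧ S = 2 ^ 24 * lin (LL δ B X) fB) : CertB := by
  intro α β _ _ _ _ B X hB hX δ
  obtain ⟨S, h0, h1⟩ := H α β B X hB hX δ
  have h2 := Av_FFB δ B X
  rw [← h2] at h1
  nlinarith

/-- The nine block sums of a certificate. -/
theorem nine_nonneg {B : Fin 2 → Matrix κ ι ℂ} {X : Matrix ι ι ℂ} (hB : ConR B) (hX : X.PosDef)
    (δ : H92U.Design 2 D) {m1 m2 m3 m4 m5 m6 m7 m8 m9 : ℕ} {q : Int}
    {G1 L1 G2 L2 G3 L3 G4 L4 G5 L5 G6 L6 G7 L7 G8 L8 G9 L9 : List (List Int)}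
    (h1 : psdOK m1 q G1 L1 = true) (h2 : psdOK m2 q G2 L2 = true) (h3 : psdOK m3 q G3 L3 = true)
    (h4 : psdOK m4 q G4 L4 = true) (h5 : psdOK m5 q G5 L5 = true) (h6 : psdOK m6 q G6 L6 = true)
    (h7 : psdOK m7 q G7 L7 = true) (h8 : psdOK m8 q G8 L8 = true) (h9 : psdOK m9 q G9 L9 = true)
    (z1 z2 z3 z4 z5 : ℕ → El) (z6 z7 z8 z9 : ℕ → El × El) :
    0 ≤ 4 * (bs m1 G1 (fun i j => lin (LL δ B X) (smul' (z1 i) (z1 j))) +
        bs m2 G2 (fun i j => lin (LL δ B X) (smul' (z2 i) (z2 j))) +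
        bs m3 G3 (fun i j => lin (LL δ B X) (smul' (z3 i) (z3 j))) +
        bs m4 G4 (fun i j => lin (LL δ B X) (smul' (z4 i) (z4 j))) +
        bs m5 G5 (fun i j => lin (LL δ B X) (tens' (z5 i) (z5 j)))) +
      (bs m6 G6 (fun i j => lin (LL δ B X) (loc' (z6 i) (z6 j))) +
        bs m7 G7 (fun i j => lin (LL δ B X) (loc' (z7 i) (z7 j))) +
        bs m8 G8 (fun i j => lin (LL δ B X) (loc' (z8 i) (z8 j))) +
        bs m9 G9 (fun i j => lin (LL δ B X) (loc' (z9 i) (z9 j)))) := by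
  have e1 := bs_nonneg h1 (sq_PK δ B hX.isHermitian m1 z1)
  have e2 := bs_nonneg h2 (sq_PK δ B hX.isHermitian m2 z2)
  have e3 := bs_nonneg h3 (sq_PK δ B hX.isHermitian m3 z3)
  have e4 := bs_nonneg h4 (sq_PK δ B hX.isHermitian m4 z4)
  have e5 := bs_nonneg h5 (xx_PK δ B hX.posSemidef m5 z5)
  have e6 := bs_nonneg h6 (loc_PK δ hB hX.isHermitian m6 z6)
  have e7 := bs_nonneg h7 (loc_PK δ hB hX.isHermitian m7 z7)
  have e8 := bs_nonneg h8 (loc_PK δ hB hX.isHermitian m8 z8)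
  have e9 := bs_nonneg h9 (loc_PK δ hB hX.isHermitian m9 z9)
  linarith

end Pool.Agent.H75C
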