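import Pool.Agent.Lib.H75C.C1
import Pool.Agent.Lib.H16T.FA3
import Pool.Agent.Lib.H25A.B4

/-! # H75C/C2: the exact identity (C0) at a Perron pair

For the frame `B_l = rot U A l`, `E_l = B_l^* B_l`, `R_l = 1 - E_l`, `f_l = B_l R_l`:
`∑_{j ≠ l} |B_j^* f_l|_XX^2 = lam |f_l|_*^2 - |E_l R_l|_XX^2`, `lam ≤ (n + 1) / 2`. -/

namespace Pool.Agent.H75C

open Matrix Pool.Agent.H25A Pool.Agent.H54J Pool.Agent.H16T
open scoped ComplexOrder

variable {ι κ : Type*} [Fintype ι] [DecidableEq ι] [Fintype κ] [DecidableEq κ] {n D : ℕ}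

theorem sub_sq_psd {E : Matrix ι ι ℂ} (h0 : E.PosSemidef) (h1 : (1 - E).PosSemidef) :
    (E - E * E).PosSemidef := by
  obtain ⟨C, hC, hCC, -⟩ := exists_sqrt h0
  have h2 := h1.conjTranspose_mul_mul_same C
  have h3 : Cᴴ * (1 - E) * C = E - E * E := by
    rw [hC.isHermitian.eq, Matrix.mul_sub, Matrix.sub_mul, Matrix.mul_one, hCC, ← hCC]
    simp only [Matrix.mul_assoc]
  rwa [h3] at h2

omit [DecidableEq ι] in
theorem sq_psd {X : Matrix ι ι ℂ} (hX : X.IsHermitian) : (X * X).PosSemidef := by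
  have h := Matrix.posSemidef_conjTranspose_mul_self X
  rwa [hX.eq] at h

theorem nuE_nonneg {X E : Matrix ι ι ℂ} (hX : X.IsHermitian) (hE0 : E.PosSemidef)
    (hE1 : (1 - E).PosSemidef) : 0 ≤ nuE X E := by
  have h1 := rtr_comm_le hX hE0.isHermitian
  have h2 := rtr_mul_le (sub_sq_psd hE0 hE1 : (E - E * E).PosSemidef) (sq_psd hX)
  rw [rtr_mul_comm (E * E), rtr_mul_comm E] at h2
  unfold nuE
  linarith

/-- `lam ≤ (n + 1) / 2` at a Perron pair. -/
theorem lam_le {A : Fin n → Matrix κ ι ℂ} {X : Matrix ι ι ℂ} {X' : Matrix κ κ ℂ} {lam : ℝ}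
    (h : Perron A X X' lam) : lam ≤ ((n : ℝ) + 1) / 2 := by
  obtain ⟨δ⟩ := (inferInstance : Nonempty (H92U.Design n 4))
  have h1 := Av_nu δ le_rfl A X
  have h2 : 0 ≤ H92U.Av δ (fun U => ∑ l, nuE X (frE A U l)) :=
    H92U.Av_nonneg δ fun U => Finset.sum_nonneg fun l _ =>
      nuE_nonneg h.posX.isHermitian (frE_psd A U l) (frE_le A h.con U l)
  have h3 : rtr (phi A X * phi A X) = lam ^ 2 := by
    rw [h.map, smul_mul_smul_comm]
    have h3 : (lam : ℂ) * (lam : ℂ) = ((lam ^ 2 : ℝ) : ℂ) := by push_cast; ring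
    rw [h3, rtr_smul, h.norm', mul_one]
  have hP : (∑ j, (A j)ᴴ * A j).IsHermitian := by
    unfold Matrix.IsHermitian
    rw [Matrix.conjTranspose_sum]
    refine Finset.sum_congr rfl fun j _ => ?_
    rw [Matrix.conjTranspose_mul, Matrix.conjTranspose_conjTranspose]
  have h4 := psd_xx h.posX.posSemidef hP (Matrix.isHermitian_one (n := ι) (α := ℂ))
    (((n : ℝ) + 1) / 2)
  have h5 : xx X (1 : Matrix ι ι ℂ) = rtr (X * X) := by
    unfold xx
    rw [Matrix.conjTranspose_one, Matrix.one_mul, Matrix.mul_one]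
  have h6 : rtr (X * (∑ j, (A j)ᴴ * A j) * X * 1) = rtr (X * X * ∑ j, (A j)ᴴ * A j) := by
    rw [Matrix.mul_one, rtr_mul_comm]
    simp only [Matrix.mul_assoc]
  rw [h5, h6, h.norm] at h4
  rw [h3] at h1
  have h7 : (0 : ℝ) ≤ (n : ℝ) + 1 := by positivity
  have h8 : 0 ≤ ((n : ℝ) + 1) * H92U.Av δ (fun U => ∑ l, nuE X (frE A U l)) := mul_nonneg h7 h2
  have h9 : lam ^ 2 ≤ (((n : ℝ) + 1) / 2) ^ 2 := by nlinarith
  exact abs_le_of_sq_le_sq' h9 (by positivity) |>.2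

omit [DecidableEq ι] [Fintype κ] [DecidableEq κ] in
theorem sum_rot_phi (A : Fin n → Matrix κ ι ℂ) (X : Matrix ι ι ℂ) (U : H92U.UG n) :
    ∑ i, H92U.rot U A i * X * (H92U.rot U A i)ᴴ = phi A X := by
  unfold phi
  exact H92U.sum_rot_sesq U A A (fun x y : Matrix κ ι ℂ => x * X * yᴴ)
    (fun x y z => by rw [Matrix.add_mul, Matrix.add_mul])
    (fun x y z => by rw [Matrix.conjTranspose_add, Matrix.mul_add])
    (fun c x y => by rw [Matrix.smul_mul, Matrix.smul_mul])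
    (fun c x y => by rw [Matrix.conjTranspose_smul, Matrix.mul_smul])

/-- `|f|_*^2 = tr f^* X' f X`. -/
noncomputable def ss (X : Matrix ι ι ℂ) (X' : Matrix κ κ ℂ) (f : Matrix κ ι ℂ) : ℝ :=
  rtr (fᴴ * X' * f * X)

theorem sum_xx {A : Fin n → Matrix κ ι ℂ} {X : Matrix ι ι ℂ} {X' : Matrix κ κ ℂ} {lam : ℝ}
    (h : phi A X = (lam : ℂ) • X') (U : H92U.UG n) (f : Matrix κ ι ℂ) :
    ∑ j, xx X ((H92U.rot U A j)ᴴ * f) = lam * ss X X' f := by
  have h1 : ∀ j, xx X ((H92U.rot U A j)ᴴ * f) =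
      rtr (fᴴ * (H92U.rot U A j * X * (H92U.rot U A j)ᴴ) * f * X) := by
    intro j
    unfold xx
    rw [Matrix.conjTranspose_mul, Matrix.conjTranspose_conjTranspose]
    simp only [Matrix.mul_assoc]
  rw [Finset.sum_congr rfl fun j _ => h1 j, ← rtr_sum, ← Matrix.sum_mul, ← Matrix.sum_mul,
    ← Matrix.mul_sum, sum_rot_phi, h]
  unfold ss
  rw [Matrix.mul_smul, Matrix.smul_mul, Matrix.smul_mul, rtr_smul]

omit [DecidableEq ι] [DecidableEq κ] in
theorem rtr_comm_rect (A : Matrix ι κ ℂ) (B : Matrix κ ι ℂ) : rtr (A * B) = rtr (B * A) := by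
  unfold rtr
  rw [Matrix.trace_mul_comm]

omit [DecidableEq ι] [DecidableEq κ] in
theorem rtr_rect_nonneg (Y : Matrix κ ι ℂ) : 0 ≤ rtr (Yᴴ * Y) := by
  have h := (Matrix.posSemidef_conjTranspose_mul_self Y).trace_nonneg
  unfold rtr
  exact (Complex.nonneg_iff.mp h).1

theorem ss_le {X : Matrix ι ι ℂ} {X' : Matrix κ κ ℂ} (hX : X.IsHermitian) (hX' : X'.IsHermitian)
    (f : Matrix κ ι ℂ) :
    ss X X' f ≤ (1 / 2) * (rtr (X * X * (fᴴ * f)) + rtr (X' * X' * (f * fᴴ))) := by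
  have h := rtr_rect_nonneg (X' * f - f * X)
  have e : (X' * f - f * X)ᴴ * (X' * f - f * X) =
      (fᴴ * (X' * X' * f) - fᴴ * X' * f * X) - (X * (fᴴ * X' * f) - X * (fᴴ * f * X)) := by
    rw [Matrix.conjTranspose_sub, Matrix.conjTranspose_mul, Matrix.conjTranspose_mul, hX.eq,
      hX'.eq]
    simp only [Matrix.sub_mul, Matrix.mul_sub, Matrix.mul_assoc]
    abel
  rw [e, rtr_sub, rtr_sub, rtr_sub] at h
  have e1 : rtr (fᴴ * (X' * X' * f)) = rtr (X' * X' * (f * fᴴ)) := by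
    rw [rtr_comm_rect fᴴ (X' * X' * f)]
    simp only [Matrix.mul_assoc]
  have e2 : rtr (X * (fᴴ * X' * f)) = rtr (fᴴ * X' * f * X) := rtr_mul_comm _ _
  have e3 : rtr (X * (fᴴ * f * X)) = rtr (X * X * (fᴴ * f)) := by
    rw [rtr_mul_comm X (fᴴ * f * X), rtr_mul_comm (X * X)]
    simp only [Matrix.mul_assoc]
  rw [e1, e2, e3] at h
  unfold ss
  linarith

/-- `tr X^2 R E R`, `R = 1 - E`. -/
noncomputable def er (X E : Matrix ι ι ℂ) : ℝ := rtr (X * X * ((1 - E) * E * (1 - E)))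

theorem er_nonneg {X E : Matrix ι ι ℂ} (hX : X.IsHermitian) (hE : E.PosSemidef) : 0 ≤ er X E := by
  unfold er
  have h1 := hE.conjTranspose_mul_mul_same (1 - E)
  have h2 : (1 - E)ᴴ = 1 - E := by
    rw [Matrix.conjTranspose_sub, Matrix.conjTranspose_one, hE.isHermitian.eq]
  rw [h2] at h1
  exact rtr_mul_nonneg (sq_psd hX) h1

/-- The left side of (C0) in a frame. -/
noncomputable def c0s (A : Fin n → Matrix κ ι ℂ) (X : Matrix ι ι ℂ) (U : H92U.UG n) : ℝ :=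
  ∑ l, (∑ j ∈ Finset.univ.erase l, xx X (frT A j l U * (1 - frE A U l)) +
    xx X (frE A U l * (1 - frE A U l)))

theorem c0s_eq {A : Fin n → Matrix κ ι ℂ} {X : Matrix ι ι ℂ} {X' : Matrix κ κ ℂ} {lam : ℝ}
    (h : phi A X = (lam : ℂ) • X') (U : H92U.UG n) :
    c0s A X U = lam * ∑ l, ss X X' (H92U.rot U A l * (1 - frE A U l)) := by
  unfold c0s
  rw [Finset.mul_sum]
  refine Finset.sum_congr rfl fun l _ => ?_
  rw [← sum_xx h U, ← Finset.add_sum_erase Finset.univ _ (Finset.mem_univ l), add_comm]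
  congr 1
  · unfold frE
    simp only [Matrix.mul_assoc]
  · refine Finset.sum_congr rfl fun j _ => ?_
    unfold frT
    simp only [Matrix.mul_assoc]

omit [Fintype ι] [DecidableEq ι] [Fintype κ] [DecidableEq κ] in
theorem rot_cj (A : Fin n → Matrix κ ι ℂ) (U : H92U.UG n) (l : Fin n) :
    H92U.rot (cj U) (fun k => (A k)ᴴ) l = (H92U.rot U A l)ᴴ := by
  unfold H92U.rot
  rw [Matrix.conjTranspose_sum]
  refine Finset.sum_congr rfl fun j _ => ?_
  rw [Matrix.conjTranspose_smul, cj_apply]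

theorem frame_ss_le {A : Fin n → Matrix κ ι ℂ} {X : Matrix ι ι ℂ} {X' : Matrix κ κ ℂ}
    (hX : X.IsHermitian) (hX' : X'.IsHermitian) (U : H92U.UG n) (l : Fin n) :
    ss X X' (H92U.rot U A l * (1 - frE A U l)) ≤
      (1 / 2) * (er X (frE A U l) + er X' (frE (fun k => (A k)ᴴ) (cj U) l)) := by
  have h := ss_le hX hX' (H92U.rot U A l * (1 - frE A U l))
  have h1 : (H92U.rot U A l * (1 - frE A U l))ᴴ * (H92U.rot U A l * (1 - frE A U l)) =
      (1 - frE A U l) * frE A U l * (1 - frE A U l) := by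
    have h2 : (1 - frE A U l)ᴴ = 1 - frE A U l := by
      rw [Matrix.conjTranspose_sub, Matrix.conjTranspose_one, (frE_psd A U l).isHermitian.eq]
    rw [Matrix.conjTranspose_mul, h2]
    unfold frE
    simp only [Matrix.mul_assoc]
  have h3 : (H92U.rot U A l * (1 - frE A U l)) * (H92U.rot U A l * (1 - frE A U l))ᴴ =
      (1 - frE (fun k => (A k)ᴴ) (cj U) l) * frE (fun k => (A k)ᴴ) (cj U) l *
        (1 - frE (fun k => (A k)ᴴ) (cj U) l) := by
    have h4 : frE (fun k => (A k)ᴴ) (cj U) l = H92U.rot U A l * (H92U.rot U A l)ᴴ := by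
      unfold frE
      rw [rot_cj, Matrix.conjTranspose_conjTranspose]
    have h5 : H92U.rot U A l * (1 - frE A U l) =
        (1 - H92U.rot U A l * (H92U.rot U A l)ᴴ) * H92U.rot U A l := by
      unfold frE
      rw [Matrix.mul_sub, Matrix.sub_mul, Matrix.mul_one, Matrix.one_mul, Matrix.mul_assoc]
    have h6 : (1 - H92U.rot U A l * (H92U.rot U A l)ᴴ)ᴴ =
        1 - H92U.rot U A l * (H92U.rot U A l)ᴴ := by
      rw [Matrix.conjTranspose_sub, Matrix.conjTranspose_one, Matrix.conjTranspose_mul,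
        Matrix.conjTranspose_conjTranspose]
    rw [h5, h4, Matrix.conjTranspose_mul, h6]
    simp only [Matrix.mul_assoc]
  rw [h1, h3] at h
  exact h

omit [Fintype ι] [DecidableEq ι] [DecidableEq κ] in
theorem frE_pol (A : Fin n → Matrix κ ι ℂ) (l : Fin n) :
    H92U.PolM 2 (fun U => frE A U l) := frT_pol A l l

omit [DecidableEq κ] in
/-- `er` is the real part of a polynomial of degree at most 6 in the frame. -/
theorem er_pol (A : Fin n → Matrix κ ι ℂ) (X : Matrix ι ι ℂ) (l : Fin n) :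
    H92U.PolLe 6 (fun U => (X * X * ((1 - frE A U l) * frE A U l * (1 - frE A U l))).trace) := by
  have hE := frE_pol A l
  have hR : H92U.PolM 2 (fun U => 1 - frE A U l) := (H92U.PolM.const 1).sub hE
  have h := ((H92U.PolM.const (D := 0) (n := n) (X * X)).mul ((hR.mul hE).mul hR))
  exact h.trace

theorem Av_er_cj (A : Fin n → Matrix κ ι ℂ) (X : Matrix ι ι ℂ) (δ : H92U.Design n D)
    (hD : 6 ≤ D) : H92U.Av δ (fun U => ∑ l, er X (frE A (cj U) l)) =
      H92U.Av δ (fun U => ∑ l, er X (frE A U l)) := by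
  rw [H92U.Av_sum, H92U.Av_sum]
  refine Finset.sum_congr rfl fun l _ => ?_
  exact Av_cj_re δ ((er_pol A X l).mono hD)

/-- (C0), one side. -/
theorem c0_side {A : Fin n → Matrix κ ι ℂ} {X : Matrix ι ι ℂ} {X' : Matrix κ κ ℂ} {lam : ℝ}
    (h : Perron A X X' lam) (δ : H92U.Design n D) (hD : 6 ≤ D) :
    H92U.Av δ (fun U => c0s A X U) ≤ ((n : ℝ) + 1) / 4 *
      (H92U.Av δ (fun U => ∑ l, er X (frE A U l)) +
        H92U.Av δ (fun U => ∑ l, er X' (frE (fun k => (A k)ᴴ) U l))) := by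
  have h1 : ∀ U, c0s A X U ≤ lam * ((1 / 2) * (∑ l, er X (frE A U l) +
      ∑ l, er X' (frE (fun k => (A k)ᴴ) (cj U) l))) := by
    intro U
    rw [c0s_eq h.map U, ← Finset.sum_add_distrib]
    refine mul_le_mul_of_nonneg_left ?_ h.pos.le
    rw [Finset.mul_sum]
    exact Finset.sum_le_sum fun l _ =>
      frame_ss_le h.posX.isHermitian h.posX'.isHermitian U l
  have h2 := H92U.Av_mono δ h1
  rw [H92U.Av_mul_left_real, H92U.Av_mul_left_real, H92U.Av_add, Av_er_cj _ _ δ hD] at h2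
  have h3 := lam_le h
  have h4 : 0 ≤ H92U.Av δ (fun U => ∑ l, er X (frE A U l)) := H92U.Av_nonneg δ fun U =>
    Finset.sum_nonneg fun l _ => er_nonneg h.posX.isHermitian (frE_psd A U l)
  have h5 : 0 ≤ H92U.Av δ (fun U => ∑ l, er X' (frE (fun k => (A k)ᴴ) U l)) :=
    H92U.Av_nonneg δ fun U => Finset.sum_nonneg fun l _ =>
      er_nonneg h.posX'.isHermitian (frE_psd (fun k => (A k)ᴴ) U l)
  nlinarith [mul_le_mul_of_nonneg_right h3 (add_nonneg h4 h5)]

/-- (C0), both sides added. -/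
theorem c0_sides {A : Fin n → Matrix κ ι ℂ} {X : Matrix ι ι ℂ} {X' : Matrix κ κ ℂ} {lam : ℝ}
    (h : Perron A X X' lam) (δ : H92U.Design n D) (hD : 6 ≤ D) :
    H92U.Av δ (fun U => c0s A X U - ((n : ℝ) + 1) / 2 * ∑ l, er X (frE A U l)) +
      H92U.Av δ (fun U => c0s (fun k => (A k)ᴴ) X' U -
        ((n : ℝ) + 1) / 2 * ∑ l, er X' (frE (fun k => (A k)ᴴ) U l)) ≤ 0 := by
  have h1 := c0_side h δ hD
  have h2 := c0_side (PE4c h) δ hD
  simp only [Matrix.conjTranspose_conjTranspose] at h2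
  rw [H92U.Av_sub, H92U.Av_sub, H92U.Av_mul_left_real, H92U.Av_mul_left_real]
  linarith

end Pool.Agent.H75C
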