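import Pool.Agent.Lib.H75C.C2
import Pool.Agent.Lib.H54J.J11
import Pool.Agent.Lib.H92U.U16

/-! # H75C/C3: (T1) from the plane inequality -/

namespace Pool.Agent.H75C

open Matrix Pool.Agent.H25A Pool.Agent.H54J Pool.Agent.H16T
open scoped ComplexOrder

variable {ι κ : Type*} [Fintype ι] [DecidableEq ι] [Fintype κ] [DecidableEq κ] {n D D' : ℕ}

/-! ### real polynomials on the unitary group -/

/-- Real valued polynomials of degree at most `D`. -/
def PR (D : ℕ) (f : H92U.UG n → ℝ) : Prop := H92U.PolLe D (fun U => ((f U : ℝ) : ℂ))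

theorem PR.mono {f : H92U.UG n → ℝ} (h : D ≤ D') (hf : PR D f) : PR D' f := H92U.PolLe.mono h hf

theorem PR.add {f g : H92U.UG n → ℝ} (hf : PR D f) (hg : PR D g) : PR D (fun U => f U + g U) := by
  unfold PR
  simp only [Complex.ofReal_add]
  exact H92U.PolLe.add hf hg

theorem PR.sub {f g : H92U.UG n → ℝ} (hf : PR D f) (hg : PR D g) : PR D (fun U => f U - g U) := by
  unfold PR
  simp only [Complex.ofReal_sub]
  exact H92U.PolLe.sub hf hg

theorem PR.const_mul {f : H92U.UG n → ℝ} (c : ℝ) (hf : PR D f) : PR D (fun U => c * f U) := by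
  unfold PR
  simp only [Complex.ofReal_mul]
  exact H92U.PolLe.smul _ hf

theorem PR.sum {α : Type*} (s : Finset α) (F : α → H92U.UG n → ℝ) (h : ∀ i ∈ s, PR D (F i)) :
    PR D (fun U => ∑ i ∈ s, F i U) := by
  unfold PR
  simp only [Complex.ofReal_sum]
  exact H92U.PolLe.sum s _ h

theorem PR.re {f : H92U.UG n → ℂ} (hf : H92U.PolLe D f) : PR D (fun U => (f U).re) := by
  have h1 : H92U.PolLe D (fun U => (2⁻¹ : ℂ) * (f U + star (f U))) :=
    H92U.PolLe.smul _ (H92U.PolLe.add hf (H92U.PolLe.star hf))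
  have h2 : (fun U => (2⁻¹ : ℂ) * (f U + star (f U))) = fun U => (((f U).re : ℝ) : ℂ) := by
    funext U
    rw [Complex.star_def, Complex.add_conj]
    push_cast
    ring
  unfold PR
  rw [← h2]
  exact h1

theorem PR.rtr {F : H92U.UG n → Matrix ι ι ℂ} (hF : H92U.PolM D F) :
    PR D (fun U => rtr (F U)) := PR.re hF.trace

theorem PR.Av_nonneg (δ : H92U.Design n D) {f : H92U.UG n → ℝ} (hf : PR D f) {N : ℕ}
    (w : Fin N → ℝ) (hw : ∑ k, w k = 1) (V : Fin N → H92U.UG n)
    (h : ∀ U, 0 ≤ ∑ k, w k * f (U * V k)) : 0 ≤ H92U.Av δ f := by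
  have h1 := H92U.Av_nonneg_of_family δ hf w hw V (by
    intro U
    simp only [Complex.ofReal_re]
    exact h U)
  simp only [Complex.ofReal_re] at h1
  exact h1

/-! ### the chain inequality with the polynomial pair functional -/

/-- The pair functional. -/
noncomputable def pf (m : ℝ) (X E F : Matrix ι ι ℂ) : ℝ :=
  (1 / 8) * (hf X (F + F - 1) (E + E - 1) + hf X (E + E - 1) (F + F - 1)) +
    (m / 64) * xx X (u8 (E + E - 1) (F + F - 1))

/-- Its sum over the ordered pairs of a frame. -/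
noncomputable def pairs4 (m : ℝ) (X : Matrix ι ι ℂ) (E : Fin n → Matrix ι ι ℂ) : ℝ :=
  ∑ l, ∑ i ∈ Finset.univ.erase l, pf m X (E l) (E i)

theorem chain_pairs4 {m : ℝ} (hm : 50 / 41 ≤ m) {X : Matrix ι ι ℂ} (hX : X.PosDef) (k : ℤ)
    (E : Fin n → Matrix ι ι ℂ)
    (hE0 : ∀ l, (E l).PosSemidef) (hE1 : ∀ l, (1 - E l).PosSemidef) :
    (2 * k + 1) * rtr (X * X * ∑ l, E l) - rtr (X * (∑ l, E l) * X * ∑ l, E l) -
        (k : ℝ) * (k + 1) * rtr (X * X) ≤
      (∑ l, nuE X (E l)) + (1 / 3) * pairs4 m X E := by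
  obtain ⟨S, -, hSX, hSpd⟩ := exists_sqrt hX.posSemidef
  have hS : S.PosDef := hSpd hX
  have hXh : X.IsHermitian := hX.isHermitian
  choose N hN hI using fun l => exists_canInst hS hSX (hE0 l) (hE1 l)
  have h1 := thmA hX k N hI
  have h2 := WS_le4 (5 / 7) m (by norm_num) (by norm_num) (by linarith) (by linarith)
    hS hSX hXh E hE0 hE1 N hN hI
  have hg : ∀ l, gG X (N l) = S * E l * S := fun l => canInst_gG hS hSX (hN l)
  have hsum : ∑ l, gG X (N l) = S * (∑ l, E l) * S := by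
    simp only [hg, Matrix.mul_sum, Matrix.sum_mul]
  have e1 : ∀ F : Matrix ι ι ℂ, rtr (X * (S * F * S)) = rtr (X * X * F) := by
    intro F
    have h := rtr_mul_comm (X * S * F) S
    have h' : X * (S * F * S) = X * S * F * S := by simp only [Matrix.mul_assoc]
    have h'' : S * (X * S * F) = X * X * F := by
      rw [← hSX]
      simp only [Matrix.mul_assoc]
    rw [h', h, h'']
  have e2 : ∀ F : Matrix ι ι ℂ, rtr (S * F * S * (S * F * S)) = rtr (X * F * X * F) := by
    intro F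
    have h' : S * F * S * (S * F * S) = S * F * X * F * S := by
      rw [← hSX]
      simp only [Matrix.mul_assoc]
    have h'' : S * (S * F * X * F) = X * F * X * F := by
      rw [← hSX]
      simp only [Matrix.mul_assoc]
    rw [h', rtr_mul_comm, h'']
  rw [hsum, e1, e2] at h1
  have e3 : ∀ l, rtr (X * gG X (N l)) - rtr (gG X (N l) * gG X (N l)) = nuE X (E l) := by
    intro l
    rw [hg, e1, e2]
    rfl
  simp only [e3] at h1
  unfold pairs4 pf
  linarith

/-! ### the plane inequality -/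

/-- The plane functional of a pair of matrices `B0, B1` with effects `E0, E1`. -/
noncomputable def FF (s y m : ℝ) (X : Matrix ι ι ℂ) (B0 B1 : Matrix κ ι ℂ) : ℝ :=
  3 * (1 + s) / 2 * (nuE X (B0ᴴ * B0) + nuE X (B1ᴴ * B1)) - pf m X (B0ᴴ * B0) (B1ᴴ * B1) +
    y * (4 * xx X (B1ᴴ * B0 * (1 - B0ᴴ * B0)) + 4 * s * xx X (B0ᴴ * B0 * (1 - B0ᴴ * B0)) -
      2 * (1 + 2 * s) * er X (B0ᴴ * B0))

/-- The plane inequality for a finite weighted family of rotations of the plane. -/
def Plane {N : ℕ} (w : Fin N → ℝ) (g : Fin N → H92U.UG 2) (s y m : ℝ) : Prop :=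
  ∀ (α β : Type) [Fintype α] [DecidableEq α] [Fintype β] [DecidableEq β]
    (B : Fin 2 → Matrix β α ℂ) (X : Matrix α α ℂ), ConR B → X.PosDef →
    0 ≤ ∑ k, w k * FF s y m X (H92U.rot (g k) B 0) (H92U.rot (g k) B 1)

section
variable {α β : Type} [Fintype α] [DecidableEq α] [Fintype β] [DecidableEq β]

omit [DecidableEq β] in
theorem rot_sesq_pol (A : Fin n → Matrix β α ℂ) (i l : Fin n) :
    H92U.PolM 2 (fun U => (H92U.rot U A i)ᴴ * H92U.rot U A l) := frT_pol A i l

theorem xx_pol {X : Matrix α α ℂ} {F : H92U.UG n → Matrix α α ℂ} (hF : H92U.PolM D F) :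
    PR (D + D) (fun U => xx X (F U)) := by
  have h := (((hF.conjTranspose).mul (H92U.PolM.const (D := 0) X)).mul hF).mul
    (H92U.PolM.const (D := 0) X)
  exact (PR.rtr h).mono (by omega)

theorem nuE_pol {X : Matrix α α ℂ} {F : H92U.UG n → Matrix α α ℂ} (hF : H92U.PolM 2 F) :
    PR 12 (fun U => nuE X (F U)) := by
  have h1 := (H92U.PolM.const (n := n) (D := 0) (X * X)).mul hF
  have h2 := (((H92U.PolM.const (n := n) (D := 0) X).mul hF).mul
    (H92U.PolM.const (n := n) (D := 0) X)).mul hF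
  exact ((PR.rtr h1).mono (by norm_num)).sub ((PR.rtr h2).mono (by norm_num))

theorem er_polR {X : Matrix α α ℂ} {F : H92U.UG n → Matrix α α ℂ} (hF : H92U.PolM 2 F) :
    PR 12 (fun U => er X (F U)) := by
  have hR : H92U.PolM 2 (fun U => 1 - F U) := (H92U.PolM.const 1).sub hF
  have h := ((H92U.PolM.const (D := 0) (n := n) (X * X)).mul ((hR.mul hF).mul hR))
  exact (PR.rtr h).mono (by norm_num)

theorem hf_pol {X : Matrix α α ℂ} {a b : H92U.UG n → Matrix α α ℂ} (ha : H92U.PolM 2 a)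
    (hb : H92U.PolM 2 b) : PR 12 (fun U => hf X (b U) (a U)) := by
  have h1 : H92U.PolM 8 (fun U => a U * a U) := (ha.mul ha).mono (by norm_num)
  have h2 : H92U.PolM 8 (fun U => a U * b U * a U * b U) :=
    (((ha.mul hb).mul ha).mul hb).mono (by norm_num)
  have h3 : H92U.PolM 8 (fun U => b U * a U * b U * a U) :=
    (((hb.mul ha).mul hb).mul ha).mono (by norm_num)
  have h4 : H92U.PolM 8 (fun U => b U * a U * a U * b U) :=
    (((hb.mul ha).mul ha).mul hb).mono (by norm_num)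
  have h5 := (H92U.PolM.const (D := 0) (n := n) (X * X)).mul (((h1.add h2).add h3).add h4)
  have h6 := (((((H92U.PolM.const (D := 0) (n := n) X).mul ha).mul
    (H92U.PolM.const (D := 0) (n := n) X)).mul hb).mul ha).mul hb
  exact (((PR.rtr h5).mono (by norm_num : 0 + 8 ≤ 12)).const_mul (1 / 4)).sub
    ((PR.rtr h6).mono (by norm_num))

theorem pf_pol (m : ℝ) {X : Matrix α α ℂ} {E F : H92U.UG n → Matrix α α ℂ} (hE : H92U.PolM 2 E)
    (hF : H92U.PolM 2 F) : PR 12 (fun U => pf m X (E U) (F U)) := by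
  have ha : H92U.PolM 2 (fun U => E U + E U - 1) := (hE.add hE).sub (H92U.PolM.const 1)
  have hb : H92U.PolM 2 (fun U => F U + F U - 1) := (hF.add hF).sub (H92U.PolM.const 1)
  have h1 : PR 12 (fun U => hf X (F U + F U - 1) (E U + E U - 1)) := hf_pol ha hb
  have h2 : PR 12 (fun U => hf X (E U + E U - 1) (F U + F U - 1)) := hf_pol hb ha
  have hu : H92U.PolM 6 (fun U => u8 (E U + E U - 1) (F U + F U - 1)) := by
    unfold u8
    exact (((ha.mono (by norm_num)).add (hb.mono (by norm_num))).sub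
      (((ha.mul hb).mul ha).mono (by norm_num))).sub (((hb.mul ha).mul hb).mono (by norm_num))
  exact ((h1.add h2).const_mul (1 / 8)).add ((xx_pol hu).const_mul (m / 64))

theorem FF_pol (s y m : ℝ) (A : Fin n → Matrix β α ℂ) (X : Matrix α α ℂ) (l i : Fin n) :
    PR 12 (fun U => FF s y m X (H92U.rot U A l) (H92U.rot U A i)) := by
  have hE := rot_sesq_pol A l l
  have hF := rot_sesq_pol A i i
  have hT := rot_sesq_pol A i l
  have hR : H92U.PolM 2 (fun U => 1 - (H92U.rot U A l)ᴴ * H92U.rot U A l) :=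
    (H92U.PolM.const 1).sub hE
  have h1 := ((nuE_pol (X := X) hE).add (nuE_pol (X := X) hF)).const_mul (3 * (1 + s) / 2)
  have h2 := pf_pol m (X := X) hE hF
  have h3 := ((xx_pol (X := X) (hT.mul hR)).mono (by norm_num : 2 + 2 + (2 + 2) ≤ 12)).const_mul 4
  have h4 := ((xx_pol (X := X) (hE.mul hR)).mono (by norm_num : 2 + 2 + (2 + 2) ≤ 12)).const_mul
    (4 * s)
  have h5 := (er_polR (X := X) hE).const_mul (2 * (1 + 2 * s))
  exact (h1.sub h2).add (((h3.add h4).sub h5).const_mul y)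

omit [DecidableEq β] in
theorem ConR_pair {A : Fin n → Matrix β α ℂ} (hA : ConR A) (U : H92U.UG n) {l i : Fin n}
    (hli : l ≠ i) : ConR (fun x => H92U.rot U A (H92U.pairI l i x)) := by
  intro x
  have hinj := H92U.pairI_inj hli
  obtain ⟨v, hv⟩ : ∃ v : Fin n → ℂ, v = fun j =>
    ∑ y : Fin 2, (U : Matrix (Fin n) (Fin n) ℂ) j (H92U.pairI l i y) * x y := ⟨_, rfl⟩
  have h := hA v
  have h1 : ∑ j, v j • A j = ∑ y, x y • H92U.rot U A (H92U.pairI l i y) := by
    rw [hv]
    unfold H92U.rot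
    simp only [Finset.sum_smul, Finset.smul_sum, smul_smul]
    rw [Finset.sum_comm]
    exact Finset.sum_congr rfl fun y _ => Finset.sum_congr rfl fun j _ => by rw [mul_comm]
  have h2 : ((∑ j, ‖v j‖ ^ 2 : ℝ) : ℂ) = ((∑ y, ‖x y‖ ^ 2 : ℝ) : ℂ) := by
    have e1 : ((∑ j, ‖v j‖ ^ 2 : ℝ) : ℂ) = ∑ j, v j * star (v j) := by
      push_cast
      refine Finset.sum_congr rfl fun j _ => ?_
      rw [H92U.mul_star_eq]
      push_cast
      rfl
    have e2 : ((∑ y, ‖x y‖ ^ 2 : ℝ) : ℂ) = ∑ y, x y * star (x y) := by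
      push_cast
      refine Finset.sum_congr rfl fun j _ => ?_
      rw [H92U.mul_star_eq]
      push_cast
      rfl
    rw [e1, e2, hv]
    have e3 : ∀ j, (∑ y : Fin 2, (U : Matrix (Fin n) (Fin n) ℂ) j (H92U.pairI l i y) * x y) *
        star (∑ y : Fin 2, (U : Matrix (Fin n) (Fin n) ℂ) j (H92U.pairI l i y) * x y) =
        ∑ y, ∑ z, (x y * star (x z)) * ((U : Matrix (Fin n) (Fin n) ℂ) j (H92U.pairI l i y) *
          star ((U : Matrix (Fin n) (Fin n) ℂ) j (H92U.pairI l i z))) := by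
      intro j
      rw [star_sum, Finset.sum_mul_sum]
      refine Finset.sum_congr rfl fun y _ => Finset.sum_congr rfl fun z _ => ?_
      rw [star_mul']
      ring
    rw [Finset.sum_congr rfl fun j _ => e3 j, Finset.sum_comm]
    refine Finset.sum_congr rfl fun y _ => ?_
    rw [Finset.sum_comm]
    have e4 : ∀ z, ∑ j, (x y * star (x z)) * ((U : Matrix (Fin n) (Fin n) ℂ) j
        (H92U.pairI l i y) * star ((U : Matrix (Fin n) (Fin n) ℂ) j (H92U.pairI l i z))) =
        if y = z then x y * star (x z) else 0 := by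
      intro z
      rw [← Finset.mul_sum, H92U.col_orth]
      by_cases hyz : y = z
      · rw [if_pos hyz, if_pos (by rw [hyz]), mul_one]
      · rw [if_neg hyz, if_neg fun h3 => hyz (hinj h3), mul_zero]
    rw [Finset.sum_congr rfl fun z _ => e4 z, Finset.sum_ite_eq Finset.univ y]
    simp
  rw [h1, h2] at h
  exact h

/-- The average of the plane functional over all frames is nonnegative. -/
theorem Av_FF_nonneg {N : ℕ} {w : Fin N → ℝ} (hw : ∑ k, w k = 1) {g : Fin N → H92U.UG 2}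
    {s y m : ℝ} (hP : Plane w g s y m) (δ : H92U.Design n D) (hD : 12 ≤ D)
    {A : Fin n → Matrix β α ℂ} (hA : ConR A) {X : Matrix α α ℂ} (hX : X.PosDef) {l i : Fin n}
    (hli : l ≠ i) :
    0 ≤ H92U.Av δ (fun U => FF s y m X (H92U.rot U A l) (H92U.rot U A i)) := by
  refine PR.Av_nonneg δ ((FF_pol s y m A X l i).mono hD) w hw
    (fun k => H92U.emb (H92U.pairI l i) (H92U.pairI_inj hli) (g k)) fun U => ?_
  have h := hP α β (fun x => H92U.rot U A (H92U.pairI l i x)) X (ConR_pair hA U hli) hX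
  refine h.trans (le_of_eq (Finset.sum_congr rfl fun k _ => ?_))
  have h0 := H92U.rot_emb (H92U.pairI l i) (H92U.pairI_inj hli) (g k) U A 0
  have h1 := H92U.rot_emb (H92U.pairI l i) (H92U.pairI_inj hli) (g k) U A 1
  rw [← h0, ← h1]
  rfl

end

/-! ### the sum over the pairs of a frame -/

theorem sum_offdiag_left (f : Fin n → ℝ) :
    ∑ l, ∑ _i ∈ Finset.univ.erase l, f l = ((n : ℝ) - 1) * ∑ l, f l := by
  have h1 : ∀ l : Fin n, ∑ _i ∈ Finset.univ.erase l, f l = ((n : ℝ) - 1) * f l := by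
    intro l
    have hn : 1 ≤ n := l.pos
    rw [Finset.sum_const, Finset.card_erase_of_mem (Finset.mem_univ _), Finset.card_univ,
      Fintype.card_fin, nsmul_eq_mul, Nat.cast_sub hn]
    push_cast
    ring
  rw [Finset.sum_congr rfl fun l _ => h1 l, ← Finset.mul_sum]

theorem sum_FF (hn : 2 ≤ n) (y m : ℝ) (A : Fin n → Matrix κ ι ℂ) (X : Matrix ι ι ℂ)
    (U : H92U.UG n) :
    ∑ l, ∑ i ∈ Finset.univ.erase l,
        FF (1 / ((n : ℝ) - 1)) y m X (H92U.rot U A l) (H92U.rot U A i) =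
      3 * (n : ℝ) * ∑ l, nuE X (frE A U l) - pairs4 m X (frE A U) +
        4 * y * (c0s A X U - ((n : ℝ) + 1) / 2 * ∑ l, er X (frE A U l)) := by
  have hn' : (2 : ℝ) ≤ (n : ℝ) := by exact_mod_cast hn
  have hn1 : (n : ℝ) - 1 ≠ 0 := by linarith
  have e0 : ∀ l i, FF (1 / ((n : ℝ) - 1)) y m X (H92U.rot U A l) (H92U.rot U A i) =
      3 * (1 + 1 / ((n : ℝ) - 1)) / 2 * (nuE X (frE A U l) + nuE X (frE A U i)) -
        pf m X (frE A U l) (frE A U i) +
      4 * y * xx X (frT A i l U * (1 - frE A U l)) +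
      4 * y * (1 / ((n : ℝ) - 1)) * xx X (frE A U l * (1 - frE A U l)) -
      2 * y * (1 + 2 * (1 / ((n : ℝ) - 1))) * er X (frE A U l) := by
    intro l i
    unfold FF frT frE
    ring
  have e1 := sum_offdiag_add (fun l : Fin n => nuE X (frE A U l))
  rw [Fintype.card_fin] at e1
  have e2 := sum_offdiag_left (fun l : Fin n => xx X (frE A U l * (1 - frE A U l)))
  have e3 := sum_offdiag_left (fun l : Fin n => er X (frE A U l))
  simp only [e0, Finset.sum_sub_distrib, Finset.sum_add_distrib, ← Finset.mul_sum]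
  simp only [Finset.sum_add_distrib] at e1
  rw [e2, e3]
  have e4 : c0s A X U = ∑ l, ∑ j ∈ Finset.univ.erase l, xx X (frT A j l U * (1 - frE A U l)) +
      ∑ l, xx X (frE A U l * (1 - frE A U l)) := by
    unfold c0s
    rw [Finset.sum_add_distrib]
  rw [e4]
  unfold pairs4
  rw [e1]
  field_simp
  ring

/-- The chain inequality averaged over the frames, in the normalisation of the pair. -/
theorem side4 (k : ℕ) {m : ℝ} (hm : 50 / 41 ≤ m) (δ : H92U.Design (2 * k) D) (hD : 4 ≤ D)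
    (A : Fin (2 * k) → Matrix κ ι ℂ) (hA : ConR A) {X : Matrix ι ι ℂ} (hX : X.PosDef) :
    rtr (phi A X * phi A X) - (k : ℝ) * (k + 1) * rtr (X * X) +
      2 * (k : ℝ) * H92U.Av δ (fun U => ∑ l, nuE X (frE A U l)) ≤
    (1 / 3) * H92U.Av δ (fun U => pairs4 m X (frE A U)) := by
  have h1 := Av_nu δ hD A X
  have h2 : ∀ U : H92U.UG (2 * k), (2 * (k : ℝ) + 1) * rtr (X * X * ∑ j, (A j)ᴴ * A j) -
      rtr (X * (∑ j, (A j)ᴴ * A j) * X * ∑ j, (A j)ᴴ * A j) - (k : ℝ) * (k + 1) * rtr (X * X) ≤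
      (∑ l, nuE X (frE A U l)) + (1 / 3) * pairs4 m X (frE A U) := by
    intro U
    have h := chain_pairs4 hm hX (k : ℤ) (frE A U) (frE_psd A U) (frE_le A hA U)
    rw [sum_frE] at h
    push_cast at h
    exact h
  have h3 := H92U.Av_mono δ h2
  rw [H92U.Av_const, H92U.Av_add, H92U.Av_mul_left_real] at h3
  push_cast at h1
  linarith

section
variable {α β : Type} [Fintype α] [DecidableEq α] [Fintype β] [DecidableEq β]

theorem side5 {N : ℕ} {w : Fin N → ℝ} (hw : ∑ k, w k = 1) {g : Fin N → H92U.UG 2} (k : ℕ)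
    (hk : 1 ≤ k) {y m : ℝ} (hm : 50 / 41 ≤ m)
    (hP : Plane w g (1 / (((2 * k : ℕ) : ℝ) - 1)) y m) (δ : H92U.Design (2 * k) D) (hD : 12 ≤ D)
    {A : Fin (2 * k) → Matrix β α ℂ} {X : Matrix α α ℂ} {X' : Matrix β β ℂ} {lam : ℝ}
    (h : Perron A X X' lam) :
    lam ^ 2 - (k : ℝ) * (k + 1) ≤ (4 / 3) * y *
      H92U.Av δ (fun U => c0s A X U - (((2 * k : ℕ) : ℝ) + 1) / 2 * ∑ l, er X (frE A U l)) := by
  have h1 := side4 k hm δ (by omega) A h.con h.posX
  have h2 : rtr (phi A X * phi A X) = lam ^ 2 := by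
    rw [h.map, smul_mul_smul_comm]
    have h3 : (lam : ℂ) * (lam : ℂ) = ((lam ^ 2 : ℝ) : ℂ) := by push_cast; ring
    rw [h3, rtr_smul, h.norm', mul_one]
  have h3 : 0 ≤ H92U.Av δ (fun U => ∑ l, ∑ i ∈ Finset.univ.erase l,
      FF (1 / (((2 * k : ℕ) : ℝ) - 1)) y m X (H92U.rot U A l) (H92U.rot U A i)) := by
    rw [H92U.Av_sum]
    refine Finset.sum_nonneg fun l _ => ?_
    rw [H92U.Av_sum]
    exact Finset.sum_nonneg fun i hi =>
      Av_FF_nonneg hw hP δ hD h.con h.posX (Finset.ne_of_mem_erase hi).symm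
  rw [H92U.Av_congr δ (fun U => sum_FF (by omega) y m A X U), H92U.Av_add, H92U.Av_sub,
    H92U.Av_mul_left_real, H92U.Av_mul_left_real] at h3
  rw [h2, h.norm] at h1
  push_cast at h1 h3 ⊢
  linarith

/-- **(T1) for `n = 2k` from the plane inequality.** -/
theorem T1_of_plane {N : ℕ} {w : Fin N → ℝ} (hw : ∑ k, w k = 1) {g : Fin N → H92U.UG 2} (k : ℕ)
    (hk : 1 ≤ k) {y m : ℝ} (hy : 0 ≤ y) (hm : 50 / 41 ≤ m)
    (hP : Plane w g (1 / (((2 * k : ℕ) : ℝ) - 1)) y m) : T1Pos (2 * k) ((k : ℝ) * (k + 1)) := by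
  refine PE4b (by positivity) ?_
  intro α β _ _ _ _ A X X' lam hPer
  obtain ⟨δ⟩ := (inferInstance : Nonempty (H92U.Design (2 * k) 12))
  have h1 := side5 hw k hk hm hP δ le_rfl hPer
  have h2 := side5 hw k hk hm hP δ le_rfl (PE4c hPer)
  have h3 := c0_sides hPer δ (by norm_num)
  have h4 := mul_nonneg hy (sub_nonneg.2 h3)
  linarith

end

end Pool.Agent.H75C
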