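import Pool.Agent.Lib.H75C.C3

/-! # H75C/C4: the plane inequality averaged over a design of `U(2)` -/

namespace Pool.Agent.H75C

open Matrix Pool.Agent.H25A Pool.Agent.H54J Pool.Agent.H16T
open scoped ComplexOrder

/-- The plane inequality, averaged over an arbitrary design of `U(2)` of degree 12. -/
def PlaneD (s y m : ℝ) : Prop :=
  ∀ (α β : Type) [Fintype α] [DecidableEq α] [Fintype β] [DecidableEq β]
    (B : Fin 2 → Matrix β α ℂ) (X : Matrix α α ℂ), ConR B → X.PosDef →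
    ∀ δ : H92U.Design 2 12,
      0 ≤ H92U.Av δ (fun g => FF s y m X (H92U.rot g B 0) (H92U.rot g B 1))

/-- **(T1) for `n = 2k` from the plane inequality.** -/
theorem T1_of_planeD (k : ℕ) (hk : 1 ≤ k) {y m : ℝ} (hy : 0 ≤ y) (hm : 50 / 41 ≤ m)
    (hP : PlaneD (1 / (((2 * k : ℕ) : ℝ) - 1)) y m) : T1Pos (2 * k) ((k : ℝ) * (k + 1)) := by
  obtain ⟨δ⟩ := (inferInstance : Nonempty (H92U.Design 2 12))
  refine T1_of_plane (w := δ.w) δ.sum_one (g := δ.u) k hk hy hm ?_
  intro α β _ _ _ _ B X hB hX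
  have h := hP α β B X hB hX δ
  unfold H92U.Av at h
  simpa only [smul_eq_mul] using h

end Pool.Agent.H75C
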