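import Pool.Agent.Lib.H75C.C4

/-! # H75C/C5: the plane functional in the letters `K, P, Y, Z`

`K = T_00 + T_11 - 1`, `P = T_01 + T_10`, `Y = T_10 - T_01`, `Z = T_00 - T_11`, `T_ij = B_i^* B_j`. -/

namespace Pool.Agent.H75C

open Matrix Pool.Agent.H25A Pool.Agent.H54J Pool.Agent.H16T
open scoped ComplexOrder

variable {ι κ : Type*} [Fintype ι] [DecidableEq ι] [Fintype κ] [DecidableEq κ]

/-- The word form `Re tr X U X V`. -/
noncomputable def rr (X U V : Matrix ι ι ℂ) : ℝ := rtr (X * U * X * V)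

/-- `K = T_00 + T_11 - 1`. -/
def lK (B0 B1 : Matrix κ ι ℂ) : Matrix ι ι ℂ := B0ᴴ * B0 + B1ᴴ * B1 - 1

/-- `P = T_01 + T_10`. -/
def lP (B0 B1 : Matrix κ ι ℂ) : Matrix ι ι ℂ := B0ᴴ * B1 + B1ᴴ * B0

/-- `Y = T_10 - T_01`. -/
def lY (B0 B1 : Matrix κ ι ℂ) : Matrix ι ι ℂ := B1ᴴ * B0 - B0ᴴ * B1

/-- `Z = T_00 - T_11`. -/
def lZ (B0 B1 : Matrix κ ι ℂ) : Matrix ι ι ℂ := B0ᴴ * B0 - B1ᴴ * B1

omit [DecidableEq κ] in
theorem lK_herm (B0 B1 : Matrix κ ι ℂ) : (lK B0 B1)ᴴ = lK B0 B1 := by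
  unfold lK
  rw [conjTranspose_sub, conjTranspose_add, conjTranspose_mul, conjTranspose_mul,
    conjTranspose_conjTranspose, conjTranspose_conjTranspose, conjTranspose_one]

omit [DecidableEq κ] [Fintype ι] [DecidableEq ι] in
theorem lP_herm (B0 B1 : Matrix κ ι ℂ) : (lP B0 B1)ᴴ = lP B0 B1 := by
  unfold lP
  rw [conjTranspose_add, conjTranspose_mul, conjTranspose_mul,
    conjTranspose_conjTranspose, conjTranspose_conjTranspose, add_comm]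

omit [DecidableEq κ] [Fintype ι] [DecidableEq ι] in
theorem lY_herm (B0 B1 : Matrix κ ι ℂ) : (lY B0 B1)ᴴ = -lY B0 B1 := by
  unfold lY
  rw [conjTranspose_sub, conjTranspose_mul, conjTranspose_mul,
    conjTranspose_conjTranspose, conjTranspose_conjTranspose, neg_sub]

omit [DecidableEq κ] [Fintype ι] [DecidableEq ι] in
theorem lZ_herm (B0 B1 : Matrix κ ι ℂ) : (lZ B0 B1)ᴴ = lZ B0 B1 := by
  unfold lZ
  rw [conjTranspose_sub, conjTranspose_mul, conjTranspose_mul,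
    conjTranspose_conjTranspose, conjTranspose_conjTranspose]

/-- The plane functional in letters, `2 E0 = 1 + K + Z`, `2 E1 = 1 + K - Z`,
`2 T_10 = P + Y`. -/
noncomputable def FL (s y m : ℝ) (X K P Y Z : Matrix ι ι ℂ) : ℝ :=
  3 * (1 + s) / 2 * ((1 / 2) * rr X 1 (1 + K + Z) - (1 / 4) * rr X (1 + K + Z) (1 + K + Z) +
      ((1 / 2) * rr X 1 (1 + K - Z) - (1 / 4) * rr X (1 + K - Z) (1 + K - Z))) -
    ((1 / 8) * (((1 / 4) * rr X 1 ((K + Z) * (K + Z) + (K + Z) * (K - Z) * (K + Z) * (K - Z) +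
          (K - Z) * (K + Z) * (K - Z) * (K + Z) + (K - Z) * (K + Z) * (K + Z) * (K - Z)) -
        rr X (K + Z) ((K - Z) * (K + Z) * (K - Z))) +
      ((1 / 4) * rr X 1 ((K - Z) * (K - Z) + (K - Z) * (K + Z) * (K - Z) * (K + Z) +
          (K + Z) * (K - Z) * (K + Z) * (K - Z) + (K + Z) * (K - Z) * (K - Z) * (K + Z)) -
        rr X (K - Z) ((K + Z) * (K - Z) * (K + Z)))) +
    (m / 64) * rr X (u8 (K + Z) (K - Z)) (u8 (K + Z) (K - Z))) +
    y * ((1 / 4) * rr X ((1 - K - Z) * (P - Y)) ((P + Y) * (1 - K - Z)) +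
      s / 4 * rr X ((1 - K - Z) * (1 + K + Z)) ((1 + K + Z) * (1 - K - Z)) -
      (1 + 2 * s) / 4 * rr X 1 ((1 - K - Z) * (1 + K + Z) * (1 - K - Z)))

theorem rtr_XXW (X W : Matrix ι ι ℂ) : rtr (X * X * W) = rr X 1 W := by
  unfold rr
  rw [Matrix.mul_one]

theorem xx_rr (X c : Matrix ι ι ℂ) : xx X c = rr X cᴴ c := by
  unfold xx rr
  rw [rtr_mul_comm]
  simp only [Matrix.mul_assoc]

omit [DecidableEq κ] in
theorem FF_letters (s y m : ℝ) (X : Matrix ι ι ℂ) (B0 B1 : Matrix κ ι ℂ) :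
    FF s y m X B0 B1 = FL s y m X (lK B0 B1) (lP B0 B1) (lY B0 B1) (lZ B0 B1) := by
  have hE0 : B0ᴴ * B0 = ((2⁻¹ : ℝ) : ℂ) • (1 + lK B0 B1 + lZ B0 B1) := by
    have h : (1 + lK B0 B1 + lZ B0 B1) = B0ᴴ * B0 + B0ᴴ * B0 := by
      unfold lK lZ
      abel
    rw [h, half_add]
  have hE1 : B1ᴴ * B1 = ((2⁻¹ : ℝ) : ℂ) • (1 + lK B0 B1 - lZ B0 B1) := by
    have h : (1 + lK B0 B1 - lZ B0 B1) = B1ᴴ * B1 + B1ᴴ * B1 := by
      unfold lK lZ
      abel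
    rw [h, half_add]
  have hR0 : 1 - B0ᴴ * B0 = ((2⁻¹ : ℝ) : ℂ) • (1 - lK B0 B1 - lZ B0 B1) := by
    have h : (1 - lK B0 B1 - lZ B0 B1) = (1 - B0ᴴ * B0) + (1 - B0ᴴ * B0) := by
      unfold lK lZ
      abel
    rw [h, half_add]
  have hT : B1ᴴ * B0 = ((2⁻¹ : ℝ) : ℂ) • (lP B0 B1 + lY B0 B1) := by
    have h : lP B0 B1 + lY B0 B1 = B1ᴴ * B0 + B1ᴴ * B0 := by
      unfold lP lY
      abel
    rw [h, half_add]
  have ha : B0ᴴ * B0 + B0ᴴ * B0 - 1 = lK B0 B1 + lZ B0 B1 := by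
    unfold lK lZ
    abel
  have hb : B1ᴴ * B1 + B1ᴴ * B1 - 1 = lK B0 B1 - lZ B0 B1 := by
    unfold lK lZ
    abel
  have hK := lK_herm B0 B1
  have hP := lP_herm B0 B1
  have hY := lY_herm B0 B1
  have hZ := lZ_herm B0 B1
  unfold FF pf
  rw [ha, hb]
  unfold nuE er
  rw [hR0, hT, hE0, hE1]
  generalize lK B0 B1 = K at *
  generalize lP B0 B1 = P at *
  generalize lY B0 B1 = Y at *
  generalize lZ B0 B1 = Z at *
  have hu : (u8 (K + Z) (K - Z))ᴴ = u8 (K + Z) (K - Z) := by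
    unfold u8
    simp only [conjTranspose_sub, conjTranspose_add, conjTranspose_mul, hK, hZ, Matrix.mul_assoc]
  have e2 : xx X (u8 (K + Z) (K - Z)) = rr X (u8 (K + Z) (K - Z)) (u8 (K + Z) (K - Z)) := by
    rw [xx_rr, hu]
  have hc1 : ((1 + K + Z) * (1 - K - Z))ᴴ = (1 - K - Z) * (1 + K + Z) := by
    rw [conjTranspose_mul, conjTranspose_sub, conjTranspose_sub, conjTranspose_add,
      conjTranspose_add, conjTranspose_one, hK, hZ]
  have hc2 : ((P + Y) * (1 - K - Z))ᴴ = (1 - K - Z) * (P - Y) := by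
    rw [conjTranspose_mul, conjTranspose_sub, conjTranspose_sub, conjTranspose_add,
      conjTranspose_one, hK, hZ, hP, hY, ← sub_eq_add_neg]
  have e3 : ∀ c : Matrix ι ι ℂ, xx X (((2⁻¹ : ℝ) : ℂ) • (((2⁻¹ : ℝ) : ℂ) • c)) =
      (1 / 16) * rr X cᴴ c := by
    intro c
    rw [xx_rr]
    unfold rr
    simp only [conjTranspose_smul, Complex.star_def, Complex.conj_ofReal, Matrix.mul_smul,
      Matrix.smul_mul, rtr_smul]
    ring
  simp only [Matrix.smul_mul, Matrix.mul_smul, e2, e3, hc1, hc2]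
  unfold FL hf
  simp only [rtr_smul, rtr_XXW]
  unfold rr
  simp only [Matrix.mul_assoc]
  ring

end Pool.Agent.H75C
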