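import Pool.Agent.Lib.H75C.C5

/-! # H75C/C6: words in the letters and the three positive forms

Words are lists over `Fin 4` (`0 = K, 1 = P, 2 = Y, 3 = Z`); two sided elements are lists of
`(coefficient, left word, right word)`, standing for `∑ c • u X v`. -/

namespace Pool.Agent.H75C

open Matrix Pool.Agent.H25A Pool.Agent.H54J Pool.Agent.H16T
open scoped ComplexOrder

variable {ι κ : Type*} [Fintype ι] [DecidableEq ι] [Fintype κ] [DecidableEq κ]

/-- Words. -/
abbrev Wd := List (Fin 4)

/-- Two sided elements. -/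
abbrev El := List (ℤ × Wd × Wd)

/-- Evaluation of a word. -/
def wd (L : Fin 4 → Matrix ι ι ℂ) (w : Wd) : Matrix ι ι ℂ := (w.map L).prod

theorem wd_nil (L : Fin 4 → Matrix ι ι ℂ) : wd L [] = 1 := rfl

theorem wd_cons (L : Fin 4 → Matrix ι ι ℂ) (a : Fin 4) (w : Wd) : wd L (a :: w) = L a * wd L w := by
  unfold wd
  rw [List.map_cons, List.prod_cons]

theorem wd_append (L : Fin 4 → Matrix ι ι ℂ) (w w' : Wd) : wd L (w ++ w') = wd L w * wd L w' := by
  unfold wd
  rw [List.map_append, List.prod_append]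

/-- The sign `(-1)^(number of Y)`. -/
def sg : Wd → ℤ
  | [] => 1
  | a :: w => if a = 2 then - sg w else sg w

theorem sg_append (w w' : Wd) : sg (w ++ w') = sg w * sg w' := by
  induction w with
  | nil => simp [sg]
  | cons a w ih =>
    rw [List.cons_append, sg, sg, ih]
    split_ifs <;> ring

theorem sg_reverse (w : Wd) : sg w.reverse = sg w := by
  induction w with
  | nil => rfl
  | cons a w ih =>
    rw [List.reverse_cons, sg_append, ih, sg, sg, sg]
    split_ifs <;> ring

/-- A family of letters with `K, P, Z` Hermitian and `Y` anti-Hermitian. -/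
def LetH (L : Fin 4 → Matrix ι ι ℂ) : Prop := ∀ a, (L a)ᴴ = if a = 2 then - L a else L a

theorem wd_conjTranspose {L : Fin 4 → Matrix ι ι ℂ} (hL : LetH L) (w : Wd) :
    (wd L w)ᴴ = (sg w : ℂ) • wd L w.reverse := by
  induction w with
  | nil => simp [wd, sg]
  | cons a w ih =>
    rw [wd_cons, conjTranspose_mul, ih, hL a, List.reverse_cons, wd_append, wd_cons, wd_nil,
      Matrix.mul_one, sg]
    split_ifs
    · rw [Matrix.mul_neg, Matrix.smul_mul]
      push_cast
      rw [neg_smul]
    · rw [Matrix.smul_mul]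

/-- Evaluation of a two sided element. -/
noncomputable def evm (L : Fin 4 → Matrix ι ι ℂ) (X : Matrix ι ι ℂ) (z : El) : Matrix ι ι ℂ :=
  (z.map fun t => (t.1 : ℂ) • (wd L t.2.1 * X * wd L t.2.2)).sum

/-- Evaluation of the left words. -/
noncomputable def evl (L : Fin 4 → Matrix ι ι ℂ) (z : El) : Matrix ι ι ℂ :=
  (z.map fun t => (t.1 : ℂ) • wd L t.2.1).sum

/-- Linear extension of a function of two words. -/
noncomputable def lin (f : Wd → Wd → ℝ) (z : El) : ℝ :=
  (z.map fun t => (t.1 : ℝ) * f t.2.1 t.2.2).sum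

theorem lin_nil (f : Wd → Wd → ℝ) : lin f [] = 0 := rfl

theorem lin_cons (f : Wd → Wd → ℝ) (t : ℤ × Wd × Wd) (z : El) :
    lin f (t :: z) = (t.1 : ℝ) * f t.2.1 t.2.2 + lin f z := by
  unfold lin
  rw [List.map_cons, List.sum_cons]

theorem lin_append (f : Wd → Wd → ℝ) (z z' : El) : lin f (z ++ z') = lin f z + lin f z' := by
  unfold lin
  rw [List.map_append, List.sum_append]

theorem lin_flatMap {α : Type*} (f : Wd → Wd → ℝ) (l : List α) (g : α → El) :
    lin f (l.flatMap g) = (l.map fun a => lin f (g a)).sum := by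
  induction l with
  | nil => rfl
  | cons a l ih => rw [List.flatMap_cons, lin_append, ih, List.map_cons, List.sum_cons]

/-- The product `z^* z'` of two sided elements. -/
def smul' (z z' : El) : El := z.flatMap fun t => z'.map fun t' =>
  (sg t.2.1 * sg t.2.2 * (t.1 * t'.1), t.2.1.reverse ++ t'.2.1, t'.2.2 ++ t.2.2.reverse)

/-- The element `l ⊗ (l')^*` of one sided elements. -/
def tens' (z z' : El) : El := z.flatMap fun t => z'.map fun t' =>
  (sg t'.2.1 * (t.1 * t'.1), t.2.1, t'.2.1.reverse)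

theorem rtr_intsmul (c : ℤ) (A : Matrix ι ι ℂ) : rtr ((c : ℂ) • A) = (c : ℝ) * rtr A := by
  have h : ((c : ℂ)) = (((c : ℝ)) : ℂ) := by push_cast; rfl
  rw [h, rtr_smul]

theorem rtr_listsum (l : List (Matrix ι ι ℂ)) : rtr l.sum = (l.map rtr).sum := by
  induction l with
  | nil => simp [rtr]
  | cons a l ih => rw [List.sum_cons, rtr_add, ih, List.map_cons, List.sum_cons]

theorem sum_listmap_mul (l : List (Matrix ι ι ℂ)) (A : Matrix ι ι ℂ) :
    l.sum * A = (l.map fun B => B * A).sum := by
  induction l with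
  | nil => simp
  | cons a l ih => rw [List.sum_cons, Matrix.add_mul, ih, List.map_cons, List.sum_cons]

theorem mul_sum_listmap (l : List (Matrix ι ι ℂ)) (A : Matrix ι ι ℂ) :
    A * l.sum = (l.map fun B => A * B).sum := by
  induction l with
  | nil => simp
  | cons a l ih => rw [List.sum_cons, Matrix.mul_add, ih, List.map_cons, List.sum_cons]

theorem conjTranspose_listsum (l : List (Matrix ι ι ℂ)) :
    (l.sum)ᴴ = (l.map fun B => Bᴴ).sum := by
  induction l with
  | nil => simp
  | cons a l ih => rw [List.sum_cons, conjTranspose_add, ih, List.map_cons, List.sum_cons]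

/-- `Re tr Z^* Z'` in words. -/
theorem rtr_evm_mul {L : Fin 4 → Matrix ι ι ℂ} (hL : LetH L) {X : Matrix ι ι ℂ}
    (hX : X.IsHermitian) (z z' : El) :
    rtr ((evm L X z)ᴴ * evm L X z') =
      lin (fun u v => rr X (wd L u) (wd L v)) (smul' z z') := by
  unfold smul'
  rw [lin_flatMap]
  unfold evm
  rw [conjTranspose_listsum, sum_listmap_mul, rtr_listsum, List.map_map, List.map_map,
    List.map_map]
  congr 1
  refine List.map_congr_left fun t _ => ?_
  simp only [Function.comp_apply]
  rw [mul_sum_listmap, rtr_listsum, List.map_map, List.map_map]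
  unfold lin
  rw [List.map_map]
  congr 1
  refine List.map_congr_left fun t' _ => ?_
  simp only [Function.comp_apply]
  have h1 : ((t.1 : ℂ) • (wd L t.2.1 * X * wd L t.2.2))ᴴ =
      ((sg t.2.1 * sg t.2.2 * t.1 : ℤ) : ℂ) •
        (wd L t.2.2.reverse * X * wd L t.2.1.reverse) := by
    rw [conjTranspose_smul, conjTranspose_mul, conjTranspose_mul, hX.eq,
      wd_conjTranspose hL, wd_conjTranspose hL]
    simp only [Matrix.smul_mul, Matrix.mul_smul, smul_smul, Matrix.mul_assoc]
    congr 1
    push_cast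
    simp only [Complex.star_def, map_intCast]
    ring
  rw [h1, Matrix.smul_mul, Matrix.mul_smul, smul_smul]
  have h2 : ((sg t.2.1 * sg t.2.2 * t.1 : ℤ) : ℂ) * (t'.1 : ℂ) =
      ((sg t.2.1 * sg t.2.2 * (t.1 * t'.1) : ℤ) : ℂ) := by
    push_cast
    ring
  rw [h2, rtr_intsmul]
  congr 1
  unfold rr
  rw [wd_append, wd_append]
  have h3 : wd L t.2.2.reverse * X * wd L t.2.1.reverse * (wd L t'.2.1 * X * wd L t'.2.2) =
      wd L t.2.2.reverse * (X * wd L t.2.1.reverse * (wd L t'.2.1 * X * wd L t'.2.2)) := by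
    simp only [Matrix.mul_assoc]
  rw [h3, rtr_mul_comm]
  simp only [Matrix.mul_assoc]

/-- `Re tr X R X R'^*` in words. -/
theorem rr_evl {L : Fin 4 → Matrix ι ι ℂ} (hL : LetH L) (X : Matrix ι ι ℂ) (z z' : El) :
    rr X (evl L z) ((evl L z')ᴴ) =
      lin (fun u v => rr X (wd L u) (wd L v)) (tens' z z') := by
  unfold tens' rr
  rw [lin_flatMap]
  unfold evl
  rw [mul_sum_listmap, sum_listmap_mul, sum_listmap_mul, rtr_listsum, List.map_map, List.map_map,
    List.map_map, List.map_map]
  congr 1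
  refine List.map_congr_left fun t _ => ?_
  simp only [Function.comp_apply]
  rw [conjTranspose_listsum, mul_sum_listmap, rtr_listsum, List.map_map, List.map_map,
    List.map_map]
  unfold lin
  rw [List.map_map]
  congr 1
  refine List.map_congr_left fun t' _ => ?_
  simp only [Function.comp_apply]
  have h1 : ((t'.1 : ℂ) • wd L t'.2.1)ᴴ = ((sg t'.2.1 * t'.1 : ℤ) : ℂ) • wd L t'.2.1.reverse := by
    rw [conjTranspose_smul, wd_conjTranspose hL, smul_smul]
    congr 1
    push_cast
    simp only [Complex.star_def, map_intCast]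
    ring
  rw [h1]
  simp only [Matrix.smul_mul, Matrix.mul_smul, smul_smul]
  have h2 : ((sg t'.2.1 * t'.1 : ℤ) : ℂ) * (t.1 : ℂ) =
      ((sg t'.2.1 * (t.1 * t'.1) : ℤ) : ℂ) := by
    push_cast
    ring
  rw [h2, rtr_intsmul]

end Pool.Agent.H75C
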